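import Mathlib

set_option autoImplicit false

open Finset Filter Topology

namespace Pool.Agent.Results.MP_a40b8c_co.RandomConsecutive

/-- the set of consecutive sums of the increasing enumeration of `A` -/
def consSums (A : Finset ℕ) : Finset ℕ :=
  ((A ×ˢ A).filter fun q => q.1 ≤ q.2).image fun q =>
    ∑ a ∈ A.filter (fun a => q.1 ≤ a ∧ a ≤ q.2), a

open Classical in
/-- the probability that the `p`-random subset of `[n]` has the property `Q` -/
noncomputable def prob (p : ℝ) (n : ℕ) (Q : Finset ℕ → Prop) : ℝ :=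
  ∑ A ∈ (Finset.Icc 1 n).powerset.filter Q, p ^ A.card * (1 - p) ^ (n - A.card)

/-! ### expectations over random subsets -/

/-- expectation of `f` over the `p`-random subset of `I` -/
noncomputable def Ex (p : ℝ) (I : Finset ℕ) (f : Finset ℕ → ℝ) : ℝ :=
  ∑ B ∈ I.powerset, p ^ B.card * (1 - p) ^ (I.card - B.card) * f B

section basics

variable {p : ℝ} {I J : Finset ℕ} {f g : Finset ℕ → ℝ}

theorem Ex_empty : Ex p ∅ f = f ∅ := by simp [Ex]

theorem Ex_insert {a : ℕ} (ha : a ∉ I) :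
    Ex p (insert a I) f = (1 - p) * Ex p I f + p * Ex p I (fun B => f (insert a B)) := by
  unfold Ex
  rw [Finset.sum_powerset_insert ha, Finset.mul_sum, Finset.mul_sum]
  congr 1
  · apply Finset.sum_congr rfl
    intro B hB
    have h := Finset.card_le_card (Finset.mem_powerset.1 hB)
    rw [Finset.card_insert_of_notMem ha, Nat.succ_sub h, pow_succ]
    ring
  · apply Finset.sum_congr rfl
    intro B hB
    have hBa : a ∉ B := fun h => ha (Finset.mem_powerset.1 hB h)
    rw [Finset.card_insert_of_notMem ha, Finset.card_insert_of_notMem hBa, Nat.succ_sub_succ,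
      pow_succ]
    ring

theorem Ex_union (hd : Disjoint I J) :
    Ex p (I ∪ J) f = Ex p I (fun B => Ex p J (fun C => f (B ∪ C))) := by
  induction I using Finset.induction_on generalizing f with
  | empty => simp [Ex_empty]
  | insert a I ha ih =>
    rw [Finset.disjoint_insert_left] at hd
    have ha' : a ∉ I ∪ J := by simp [ha, hd.1]
    rw [Finset.insert_union, Ex_insert ha', Ex_insert ha, ih hd.2, ih hd.2]
    simp only [Finset.insert_union]

theorem Ex_congr (h : ∀ B ⊆ I, f B = g B) : Ex p I f = Ex p I g := by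
  unfold Ex
  apply Finset.sum_congr rfl
  intro B hB
  rw [h B (Finset.mem_powerset.1 hB)]

theorem Ex_mono (h0 : 0 ≤ p) (h1 : p ≤ 1) (h : ∀ B ⊆ I, f B ≤ g B) : Ex p I f ≤ Ex p I g := by
  unfold Ex
  apply Finset.sum_le_sum
  intro B hB
  apply mul_le_mul_of_nonneg_left (h B (Finset.mem_powerset.1 hB))
  have : 0 ≤ 1 - p := by linarith
  positivity

theorem Ex_add : Ex p I (fun B => f B + g B) = Ex p I f + Ex p I g := by
  unfold Ex
  rw [← Finset.sum_add_distrib]
  apply Finset.sum_congr rfl; intro B _; ring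

theorem Ex_sub : Ex p I (fun B => f B - g B) = Ex p I f - Ex p I g := by
  unfold Ex
  rw [← Finset.sum_sub_distrib]
  apply Finset.sum_congr rfl; intro B _; ring

theorem Ex_mul (c : ℝ) : Ex p I (fun B => c * f B) = c * Ex p I f := by
  unfold Ex
  rw [Finset.mul_sum]
  apply Finset.sum_congr rfl; intro B _; ring

theorem Ex_sum {ι : Type*} (s : Finset ι) (F : ι → Finset ℕ → ℝ) :
    Ex p I (fun B => ∑ i ∈ s, F i B) = ∑ i ∈ s, Ex p I (F i) := by
  unfold Ex
  rw [Finset.sum_comm]
  apply Finset.sum_congr rfl; intro B _; rw [Finset.mul_sum]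

theorem Ex_const (c : ℝ) : Ex p I (fun _ => c) = c := by
  induction I using Finset.induction_on with
  | empty => simp [Ex_empty]
  | insert a I ha ih => rw [Ex_insert ha, ih]; ring

theorem Ex_comm {q : ℝ} (F : Finset ℕ → Finset ℕ → ℝ) :
    Ex p I (fun B => Ex q J (fun C => F B C)) = Ex q J (fun C => Ex p I (fun B => F B C)) := by
  unfold Ex
  simp only [Finset.mul_sum]
  rw [Finset.sum_comm]
  apply Finset.sum_congr rfl; intro B _
  apply Finset.sum_congr rfl; intro C _
  ring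

theorem Ex_nonneg (h0 : 0 ≤ p) (h1 : p ≤ 1) (h : ∀ B ⊆ I, 0 ≤ f B) : 0 ≤ Ex p I f := by
  have := Ex_mono (f := fun _ => (0:ℝ)) h0 h1 h
  rwa [Ex_const] at this

theorem Ex_le_one (h0 : 0 ≤ p) (h1 : p ≤ 1) (h : ∀ B ⊆ I, f B ≤ 1) : Ex p I f ≤ 1 := by
  have := Ex_mono (g := fun _ => (1:ℝ)) h0 h1 h
  rwa [Ex_const] at this

/-- marginals -/
theorem Ex_marg (h : J ⊆ I) : Ex p I (fun B => f (B ∩ J)) = Ex p J f := by
  have h1 : I = J ∪ (I \ J) := (Finset.union_sdiff_of_subset h).symm
  rw [h1, Ex_union Finset.disjoint_sdiff]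
  apply Ex_congr
  intro B hB
  rw [show f B = Ex p (I \ J) (fun _ => f B) from (Ex_const _).symm]
  apply Ex_congr
  intro C hC
  congr 1
  ext x
  simp only [Finset.mem_inter, Finset.mem_union]
  constructor
  · rintro ⟨h2 | h2, h3⟩
    · exact h2
    · exact absurd h3 (Finset.mem_sdiff.1 (hC h2)).2
  · intro h2; exact ⟨Or.inl h2, hB h2⟩

/-- invariance under injections of `I` into itself -/
theorem Ex_image {φ : ℕ → ℕ} (hinj : Set.InjOn φ I) (hmap : ∀ x ∈ I, φ x ∈ I) :
    Ex p I (fun B => f (B.image φ)) = Ex p I f := by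
  unfold Ex
  have hsub : ∀ B ∈ I.powerset, B.image φ ∈ I.powerset := by
    intro B hB
    rw [Finset.mem_powerset] at hB ⊢
    intro y hy
    obtain ⟨x, hx, rfl⟩ := Finset.mem_image.1 hy
    exact hmap x (hB hx)
  have hinj' : Set.InjOn (fun B : Finset ℕ => B.image φ) (I.powerset : Set (Finset ℕ)) := by
    intro B hB C hC h
    have hB' : (B : Set ℕ) ⊆ I := by exact_mod_cast Finset.mem_powerset.1 hB
    have hC' : (C : Set ℕ) ⊆ I := by exact_mod_cast Finset.mem_powerset.1 hC
    have h1 : φ '' (B : Set ℕ) = φ '' (C : Set ℕ) := by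
      have := congrArg (fun s : Finset ℕ => (s : Set ℕ)) h
      simpa [Finset.coe_image] using this
    have h2 := (hinj.image_eq_image_iff hB' hC').1 h1
    exact_mod_cast h2
  have himg : I.powerset.image (fun B : Finset ℕ => B.image φ) = I.powerset := by
    apply Finset.eq_of_subset_of_card_le
    · intro y hy
      obtain ⟨x, hx, rfl⟩ := Finset.mem_image.1 hy
      exact hsub x hx
    · rw [Finset.card_image_of_injOn hinj']
  conv_rhs => rw [← himg]
  rw [Finset.sum_image hinj']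
  apply Finset.sum_congr rfl
  intro B hB
  have hc : (B.image φ).card = B.card :=
    Finset.card_image_of_injOn (hinj.mono (by exact_mod_cast Finset.mem_powerset.1 hB))
  rw [hc]

/-- first and second moments of linear statistics -/
theorem Ex_lin (g : ℕ → ℝ) : Ex p I (fun B => ∑ x ∈ B, g x) = p * ∑ x ∈ I, g x := by
  induction I using Finset.induction_on with
  | empty => simp [Ex_empty]
  | insert a I ha ih =>
    rw [Ex_insert ha, ih, Finset.sum_insert ha]
    have : Ex p I (fun B => ∑ x ∈ insert a B, g x) = g a + p * ∑ x ∈ I, g x := by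
      rw [← ih, ← Ex_const (p := p) (I := I) (g a), ← Ex_add]
      apply Ex_congr
      intro B hB
      rw [Finset.sum_insert (fun h => ha (hB h))]
    rw [this]; ring

theorem Ex_sq (g : ℕ → ℝ) : Ex p I (fun B => (∑ x ∈ B, g x) ^ 2)
    = (p * ∑ x ∈ I, g x) ^ 2 + p * (1 - p) * ∑ x ∈ I, g x ^ 2 := by
  induction I using Finset.induction_on with
  | empty => simp [Ex_empty]
  | insert a I ha ih =>
    rw [Ex_insert ha, ih, Finset.sum_insert ha, Finset.sum_insert ha]
    have : Ex p I (fun B => (∑ x ∈ insert a B, g x) ^ 2)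
        = g a ^ 2 + 2 * g a * (p * ∑ x ∈ I, g x)
          + ((p * ∑ x ∈ I, g x) ^ 2 + p * (1 - p) * ∑ x ∈ I, g x ^ 2) := by
      rw [← ih, ← Ex_lin, ← Ex_mul, ← Ex_const (p := p) (I := I) (g a ^ 2), ← Ex_add, ← Ex_add]
      apply Ex_congr
      intro B hB
      rw [Finset.sum_insert (fun h => ha (hB h))]
      ring
    rw [this]; ring

end basics

/-! ### binomial atoms -/

theorem central_le (n : ℕ) : (Nat.centralBinom n : ℝ) ^ 2 * (2 * n + 1) ≤ 16 ^ n := by
  induction n with
  | zero => simp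
  | succ n ih =>
    have h := Nat.succ_mul_centralBinom_succ n
    have h' : ((n:ℝ) + 1) * (Nat.centralBinom (n + 1) : ℝ) = 2 * (2 * n + 1) * Nat.centralBinom n := by
      exact_mod_cast h
    have hn : (0:ℝ) < (n:ℝ) + 1 := by positivity
    have e1 : (Nat.centralBinom (n + 1) : ℝ) = 2 * (2 * n + 1) * Nat.centralBinom n / ((n:ℝ) + 1) := by
      field_simp; linarith
    rw [e1, div_pow, div_mul_eq_mul_div, div_le_iff₀ (by positivity)]
    push_cast
    have h2 : (2 * (2 * (n:ℝ) + 1)) ^ 2 * (2 * ((n:ℝ) + 1) + 1) ≤ 16 * ((n:ℝ) + 1) ^ 2 * (2 * n + 1) := by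
      have : (0:ℝ) ≤ n := Nat.cast_nonneg n
      nlinarith
    calc (2 * (2 * (n:ℝ) + 1) * (Nat.centralBinom n : ℝ)) ^ 2 * (2 * ((n:ℝ) + 1) + 1)
        = (Nat.centralBinom n : ℝ) ^ 2 * ((2 * (2 * (n:ℝ) + 1)) ^ 2 * (2 * ((n:ℝ) + 1) + 1)) := by ring
      _ ≤ (Nat.centralBinom n : ℝ) ^ 2 * (16 * ((n:ℝ) + 1) ^ 2 * (2 * n + 1)) :=
          mul_le_mul_of_nonneg_left h2 (by positivity)
      _ = ((Nat.centralBinom n : ℝ) ^ 2 * (2 * n + 1)) * (16 * ((n:ℝ) + 1) ^ 2) := by ring
      _ ≤ 16 ^ n * (16 * ((n:ℝ) + 1) ^ 2) := mul_le_mul_of_nonneg_right ih (by positivity)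
      _ = 16 ^ (n + 1) * ((n:ℝ) + 1) ^ 2 := by ring

theorem choose_le (n b : ℕ) : (n.choose b : ℝ) / 2 ^ n ≤ 1 / Real.sqrt (n + 1) := by
  -- even case
  have heven : ∀ j : ℕ, (Nat.centralBinom j : ℝ) / 4 ^ j ≤ 1 / Real.sqrt (2 * j + 1) := by
    intro j
    have h := central_le j
    have hs : 0 < Real.sqrt (2 * (j:ℝ) + 1) := Real.sqrt_pos.2 (by positivity)
    rw [div_le_div_iff₀ (by positivity) hs, one_mul]
    apply (pow_le_pow_iff_left₀ (by positivity) (by positivity) two_ne_zero).1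
    rw [mul_pow, Real.sq_sqrt (by positivity), ← pow_mul, mul_comm j 2, pow_mul]
    norm_num
    exact h
  rcases Nat.even_or_odd n with ⟨j, rfl⟩ | ⟨j, rfl⟩
  · have h1 : ((j + j).choose b : ℝ) ≤ Nat.centralBinom j := by
      have := Nat.choose_le_centralBinom b j
      rw [two_mul] at this
      exact_mod_cast this
    have h2 : (2:ℝ) ^ (j + j) = 4 ^ j := by rw [← two_mul, pow_mul]; norm_num
    rw [h2]
    refine (div_le_div_of_nonneg_right h1 (by positivity)).trans ((heven j).trans (le_of_eq ?_))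
    push_cast; ring_nf
  · have h1 : 2 * ((2 * j + 1).choose b : ℝ) ≤ Nat.centralBinom (j + 1) := by
      have h3 := Nat.choose_le_middle b (2 * j + 1)
      have h4 : (2 * j + 1) / 2 = j := by omega
      rw [h4] at h3
      have h5 : Nat.centralBinom (j + 1) = 2 * (2 * j + 1).choose j := by
        rw [Nat.centralBinom_eq_two_mul_choose, show 2 * (j + 1) = (2 * j + 1) + 1 by ring,
          Nat.choose_succ_succ, Nat.choose_symm_half]
        ring
      rw [h5]
      exact_mod_cast Nat.mul_le_mul_left 2 h3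
    have h2 : (2:ℝ) ^ (2 * j + 1) = 4 ^ (j + 1) / 2 := by
      rw [pow_succ, pow_mul, pow_succ]; norm_num; ring
    have h6 := heven (j + 1)
    have h7 : ((2 * j + 1).choose b : ℝ) / 2 ^ (2 * j + 1) ≤ (Nat.centralBinom (j + 1) : ℝ) / 4 ^ (j + 1) := by
      rw [h2, div_le_div_iff₀ (by positivity) (by positivity)]
      have : (0:ℝ) < 4 ^ (j + 1) := by positivity
      nlinarith
    refine h7.trans (h6.trans ?_)
    apply one_div_le_one_div_of_le (Real.sqrt_pos.2 (by positivity))
    apply Real.sqrt_le_sqrt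
    push_cast
    linarith

/-! ### Littlewood-Offord bound for swaps -/

theorem Ex_neg (V : Finset ℕ) (h : ℤ → ℝ) :
    Ex (1/2) V (fun T => h (-(T.card:ℤ))) = Ex (1/2) V (fun T => h ((T.card:ℤ) - V.card)) := by
  induction V using Finset.induction_on generalizing h with
  | empty => simp [Ex_empty]
  | insert a V ha ih =>
    rw [Ex_insert ha, Ex_insert ha]
    have e1 : Ex (1/2) V (fun B => h (-((insert a B).card:ℤ)))
        = Ex (1/2) V (fun B => h (-(B.card:ℤ) - 1)) := by
      apply Ex_congr; intro B hB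
      rw [Finset.card_insert_of_notMem (fun h => ha (hB h))]; push_cast; congr 1; ring
    have e2 : Ex (1/2) V (fun B => h (((insert a B).card:ℤ) - (insert a V).card))
        = Ex (1/2) V (fun B => h ((B.card:ℤ) - V.card)) := by
      apply Ex_congr; intro B hB
      rw [Finset.card_insert_of_notMem (fun h => ha (hB h)), Finset.card_insert_of_notMem ha]
      push_cast; congr 1; ring
    have e3 : Ex (1/2) V (fun B => h ((B.card:ℤ) - (insert a V).card))
        = Ex (1/2) V (fun B => h ((B.card:ℤ) - V.card - 1)) := by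
      apply Ex_congr; intro B hB
      rw [Finset.card_insert_of_notMem ha]
      push_cast; congr 1; ring
    rw [e1, e2, e3, ih, ih (fun z => h (z - 1))]
    ring

theorem Ex_card (F : Finset ℕ) (b : ℤ) :
    Ex (1/2) F (fun T => if (T.card:ℤ) = b then 1 else 0) ≤ 1 / Real.sqrt (F.card + 1) := by
  by_cases hb : 0 ≤ b
  · obtain ⟨b', rfl⟩ := Int.eq_ofNat_of_zero_le hb
    have : Ex (1/2) F (fun T => if (T.card:ℤ) = (b':ℤ) then 1 else 0)
        = (F.card.choose b' : ℝ) / 2 ^ F.card := by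
      unfold Ex
      have h1 : ∀ B ∈ F.powerset, (1/2:ℝ) ^ B.card * (1 - 1/2) ^ (F.card - B.card)
          * (if (B.card:ℤ) = (b':ℤ) then 1 else 0) = if B.card = b' then (1/2:ℝ) ^ F.card else 0 := by
        intro B hB
        have hc := Finset.card_le_card (Finset.mem_powerset.1 hB)
        by_cases h : B.card = b'
        · rw [if_pos h, if_pos (by exact_mod_cast h)]
          have : (1 - 1/2 : ℝ) = 1/2 := by norm_num
          rw [this, ← pow_add, mul_one]; congr 1; omega
        · rw [if_neg h, if_neg (by exact_mod_cast h), mul_zero]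
      rw [Finset.sum_congr rfl h1, ← Finset.sum_filter, Finset.sum_const,
        ← Finset.powersetCard_eq_filter, Finset.card_powersetCard, nsmul_eq_mul]
      rw [one_div, inv_pow]; rfl
    rw [this]
    exact choose_le _ _
  · have : Ex (1/2) F (fun T => if (T.card:ℤ) = b then 1 else 0) = Ex (1/2) F (fun _ => 0) := by
      apply Ex_congr; intro B _
      rw [if_neg]; push Not at hb; omega
    rw [this, Ex_const]; positivity

theorem LO (P X Y : Finset ℕ) (hX : X ⊆ P) (hY : Y ⊆ P) (b : ℤ) :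
    Ex (1/2) P (fun T => if ((T ∩ X).card : ℤ) - (T ∩ Y).card = b then 1 else 0)
      ≤ 1 / Real.sqrt (((X \ Y) ∪ (Y \ X)).card + 1) := by
  set U := X \ Y with hU
  set V := Y \ X with hV
  have hUV : Disjoint U V := by
    rw [Finset.disjoint_left]; intro x hx hx'
    exact (Finset.mem_sdiff.1 hx').2 (Finset.mem_sdiff.1 hx).1
  have hFP : U ∪ V ⊆ P := by
    intro x hx
    rcases Finset.mem_union.1 hx with h | h
    · exact hX (Finset.mem_sdiff.1 h).1
    · exact hY (Finset.mem_sdiff.1 h).1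
  have hP : P = (P \ (U ∪ V)) ∪ (U ∪ V) := (Finset.sdiff_union_of_subset hFP).symm
  conv_lhs => rw [hP, Ex_union Finset.sdiff_disjoint]
  have key : ∀ B ⊆ P \ (U ∪ V), Ex (1/2) (U ∪ V) (fun C =>
      if (((B ∪ C) ∩ X).card : ℤ) - ((B ∪ C) ∩ Y).card = b then (1:ℝ) else 0)
      ≤ 1 / Real.sqrt ((U ∪ V).card + 1) := by
    intro B hB
    rw [Ex_union hUV]
    have e1 : Ex (1/2) U (fun C => Ex (1/2) V (fun D =>
        if (((B ∪ (C ∪ D)) ∩ X).card : ℤ) - ((B ∪ (C ∪ D)) ∩ Y).card = b then (1:ℝ) else 0))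
        = Ex (1/2) U (fun C => Ex (1/2) V (fun D =>
          if (C.card : ℤ) + (D.card - V.card) = b then (1:ℝ) else 0)) := by
      apply Ex_congr; intro C hC
      rw [← Ex_neg V (fun z => if (C.card : ℤ) + z = b then (1:ℝ) else 0)]
      apply Ex_congr; intro D hD
      have hx : (B ∪ (C ∪ D)) ∩ X = (B ∩ X) ∪ C := by
        ext x
        simp only [Finset.mem_inter, Finset.mem_union]
        constructor
        · rintro ⟨h1 | h1 | h1, h2⟩
          · exact Or.inl ⟨h1, h2⟩
          · exact Or.inr h1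
          · exact absurd h2 (Finset.mem_sdiff.1 (hD h1)).2
        · rintro (⟨h1, h2⟩ | h1)
          · exact ⟨Or.inl h1, h2⟩
          · exact ⟨Or.inr (Or.inl h1), (Finset.mem_sdiff.1 (hC h1)).1⟩
      have hy : (B ∪ (C ∪ D)) ∩ Y = (B ∩ X) ∪ D := by
        ext x
        simp only [Finset.mem_inter, Finset.mem_union]
        constructor
        · rintro ⟨h1 | h1 | h1, h2⟩
          · refine Or.inl ⟨h1, ?_⟩
            by_contra h3
            exact (Finset.mem_sdiff.1 (hB h1)).2
              (Finset.mem_union_right _ (Finset.mem_sdiff.2 ⟨h2, h3⟩))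
          · exact absurd h2 (Finset.mem_sdiff.1 (hC h1)).2
          · exact Or.inr h1
        · rintro (⟨h1, h2⟩ | h1)
          · refine ⟨Or.inl h1, ?_⟩
            by_contra h3
            exact (Finset.mem_sdiff.1 (hB h1)).2
              (Finset.mem_union_left _ (Finset.mem_sdiff.2 ⟨h2, h3⟩))
          · exact ⟨Or.inr (Or.inr h1), (Finset.mem_sdiff.1 (hD h1)).1⟩
      have dx : Disjoint (B ∩ X) C := by
        rw [Finset.disjoint_left]; intro x h1 h2
        exact (Finset.mem_sdiff.1 (hB (Finset.mem_inter.1 h1).1)).2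
          (Finset.mem_union_left _ (hC h2))
      have dy : Disjoint (B ∩ X) D := by
        rw [Finset.disjoint_left]; intro x h1 h2
        exact (Finset.mem_sdiff.1 (hB (Finset.mem_inter.1 h1).1)).2
          (Finset.mem_union_right _ (hD h2))
      rw [hx, hy, Finset.card_union_of_disjoint dx, Finset.card_union_of_disjoint dy]
      have : ((((B ∩ X).card + C.card : ℕ) : ℤ) - ((B ∩ X).card + D.card : ℕ) = b)
          ↔ ((C.card : ℤ) + -(D.card : ℤ) = b) := by
        push_cast; constructor <;> intro h <;> linarith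
      simp only [this]
    rw [e1]
    have e2 : Ex (1/2) U (fun C => Ex (1/2) V (fun D =>
          if (C.card : ℤ) + (D.card - V.card) = b then (1:ℝ) else 0))
        = Ex (1/2) (U ∪ V) (fun T => if (T.card:ℤ) = b + V.card then 1 else 0) := by
      rw [Ex_union hUV]
      apply Ex_congr; intro C hC
      apply Ex_congr; intro D hD
      rw [Finset.card_union_of_disjoint (hUV.mono hC hD)]
      have : ((C.card : ℤ) + (D.card - V.card) = b) ↔ (((C.card + D.card : ℕ) : ℤ) = b + V.card) := by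
        push_cast; constructor <;> intro h <;> linarith
      simp only [this]
    rw [e2]
    exact Ex_card _ _
  calc _ ≤ Ex (1/2) (P \ (U ∪ V)) (fun _ => 1 / Real.sqrt ((U ∪ V).card + 1)) :=
        Ex_mono (by norm_num) (by norm_num) key
    _ = _ := Ex_const _

/-! ### swaps -/

/-- number of flexible pairs -/
def flc (P : Finset ℕ) (s : ℕ) (B : Finset ℕ) : ℕ := (P.filter fun i => ¬ (i ∈ B ↔ i + s ∈ B)).card

theorem Ex_flex {p : ℝ} (h0 : 0 ≤ p) (h1 : p ≤ 1) {s : ℕ} (hs : 0 < s) (P : Finset ℕ)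
    (hP : ∀ i ∈ P, ∀ j ∈ P, i + s ≠ j) (a : ℝ) (ha : 0 ≤ a) :
    Ex p (P ∪ P.image (· + s)) (fun B => 1 / (a + 1 + flc P s B))
      ≤ 1 / (a + 1 + p * (1 - p) * P.card) := by
  induction P using Finset.induction_on generalizing a with
  | empty => simp [Ex_empty, flc]
  | insert i P hi ih =>
    have hP' : ∀ i ∈ P, ∀ j ∈ P, i + s ≠ j := fun x hx y hy =>
      hP x (Finset.mem_insert_of_mem hx) y (Finset.mem_insert_of_mem hy)
    have hQ : insert i P ∪ (insert i P).image (· + s)
        = insert i (insert (i + s) (P ∪ P.image (· + s))) := by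
      ext x; simp only [Finset.mem_union, Finset.mem_insert, Finset.image_insert]; tauto
    have n1 : i + s ∉ P ∪ P.image (· + s) := by
      simp only [Finset.mem_union, Finset.mem_image, not_or, not_exists, not_and]
      refine ⟨fun h => hP i (Finset.mem_insert_self _ _) _ (Finset.mem_insert_of_mem h) rfl, ?_⟩
      intro x hx h
      have : x = i := by omega
      exact hi (this ▸ hx)
    have n0 : i ∉ P ∪ P.image (· + s) := by
      simp only [Finset.mem_union, Finset.mem_image, not_or, not_exists, not_and]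
      exact ⟨hi, fun x hx h =>
        hP x (Finset.mem_insert_of_mem hx) i (Finset.mem_insert_self _ _) h⟩
    have n2 : i ∉ insert (i + s) (P ∪ P.image (· + s)) := by
      rw [Finset.mem_insert, not_or]; exact ⟨by omega, n0⟩
    rw [hQ, Ex_insert n2, Ex_insert n1, Ex_insert n1]
    -- the four cases
    have hfl : ∀ B ⊆ P ∪ P.image (· + s), ∀ C : Finset ℕ, C ⊆ {i, i + s} →
        flc (insert i P) s (B ∪ C) = (if ¬ (i ∈ C ↔ i + s ∈ C) then 1 else 0) + flc P s B := by
      intro B hB C hC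
      unfold flc
      rw [Finset.filter_insert]
      have hiB : i ∉ B := fun h => n0 (hB h)
      have hisB : i + s ∉ B := fun h => n1 (hB h)
      have e0 : P.filter (fun j => ¬ (j ∈ B ∪ C ↔ j + s ∈ B ∪ C))
          = P.filter (fun j => ¬ (j ∈ B ↔ j + s ∈ B)) := by
        apply Finset.filter_congr
        intro j hj
        have c1 : j ∉ C := by
          intro h
          have := hC h
          simp only [Finset.mem_insert, Finset.mem_singleton] at this
          rcases this with h | h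
          · exact hi (h ▸ hj)
          · exact n1 (Finset.mem_union_left _ (h ▸ hj))
        have c2 : j + s ∉ C := by
          intro h
          have := hC h
          simp only [Finset.mem_insert, Finset.mem_singleton] at this
          rcases this with h | h
          · exact n0 (Finset.mem_union_right _ (Finset.mem_image.2 ⟨j, hj, h⟩))
          · have : j = i := by omega
            exact hi (this ▸ hj)
        simp only [Finset.mem_union, c1, c2, or_false]
      rw [e0]
      simp only [Finset.mem_union, hiB, hisB, false_or]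
      by_cases hc : (i ∈ C ↔ i + s ∈ C)
      · simp [hc]
      · rw [if_pos hc, if_pos hc, Finset.card_insert_of_notMem]
        · ring
        · intro h; exact hi (Finset.mem_filter.1 h).1
    set Q := P ∪ P.image (· + s) with hQdef
    have f00 : Ex p Q (fun B => 1 / (a + 1 + (flc (insert i P) s B : ℝ)))
        = Ex p Q (fun B => 1 / (a + 1 + (flc P s B : ℝ))) := by
      apply Ex_congr; intro B hB
      have := hfl B hB ∅ (Finset.empty_subset _)
      simp only [Finset.union_empty, Finset.notMem_empty, iff_self, not_true_eq_false, if_false,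
        zero_add] at this
      rw [this]
    have f01 : Ex p Q (fun B => 1 / (a + 1 + (flc (insert i P) s (insert (i + s) B) : ℝ)))
        = Ex p Q (fun B => 1 / ((a + 1) + 1 + (flc P s B : ℝ))) := by
      apply Ex_congr; intro B hB
      have := hfl B hB {i + s} (by simp)
      rw [Finset.union_comm, ← Finset.insert_eq] at this
      rw [this]
      have c : ¬ (i ∈ ({i + s} : Finset ℕ) ↔ i + s ∈ ({i + s} : Finset ℕ)) := by
        simp; omega
      rw [if_pos c]; push_cast; congr 1; ring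
    have f10 : Ex p Q (fun B => 1 / (a + 1 + (flc (insert i P) s (insert i B) : ℝ)))
        = Ex p Q (fun B => 1 / ((a + 1) + 1 + (flc P s B : ℝ))) := by
      apply Ex_congr; intro B hB
      have := hfl B hB {i} (by simp)
      rw [Finset.union_comm, ← Finset.insert_eq] at this
      rw [this]
      have c : ¬ (i ∈ ({i} : Finset ℕ) ↔ i + s ∈ ({i} : Finset ℕ)) := by
        simp; omega
      rw [if_pos c]; push_cast; congr 1; ring
    have f11 : Ex p Q (fun B => 1 / (a + 1 + (flc (insert i P) s (insert i (insert (i + s) B)) : ℝ)))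
        = Ex p Q (fun B => 1 / (a + 1 + (flc P s B : ℝ))) := by
      apply Ex_congr; intro B hB
      have := hfl B hB {i, i + s} (by simp)
      have e : B ∪ {i, i + s} = insert i (insert (i + s) B) := by
        ext x; simp only [Finset.mem_union, Finset.mem_insert, Finset.mem_singleton]; tauto
      rw [e] at this
      rw [this]
      simp
    rw [f00, f01, f10, f11]
    have i1 := ih hP' a ha
    have i2 := ih hP' (a + 1) (by linarith)
    rw [Finset.card_insert_of_notMem hi]
    push_cast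
    set θ := p * (1 - p) with hθ
    have hθ0 : 0 ≤ θ := mul_nonneg h0 (by linarith)
    have hk : (0:ℝ) ≤ P.card := Nat.cast_nonneg _
    set E1 := Ex p Q (fun B => 1 / (a + 1 + (flc P s B : ℝ)))
    set E2 := Ex p Q (fun B => 1 / ((a + 1) + 1 + (flc P s B : ℝ)))
    have hz : 1 ≤ a + 1 + θ * P.card := by
      have := mul_nonneg hθ0 hk; linarith
    set z := a + 1 + θ * P.card with hzdef
    have e1 : a + 1 + θ * ((P.card:ℝ) + 1) = z + θ := by simp only [hzdef]; ring
    have e2 : a + 1 + 1 + θ * (P.card:ℝ) = z + 1 := by simp only [hzdef]; ring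
    rw [e2] at i2
    rw [e1]
    have hcomb : (1 - p) * ((1 - p) * E1 + p * E2) + p * ((1 - p) * E2 + p * E1)
        = (1 - 2 * θ) * E1 + 2 * θ * E2 := by simp only [hθ]; ring
    have h2θ : 0 ≤ 1 - 2 * θ := by
      have : 1 - 2 * θ = (1 - p) ^ 2 + p ^ 2 := by simp only [hθ]; ring
      rw [this]; positivity
    calc (1 - p) * ((1 - p) * E1 + p * E2) + p * ((1 - p) * E2 + p * E1)
        = (1 - 2 * θ) * E1 + 2 * θ * E2 := hcomb
      _ ≤ (1 - 2 * θ) * (1 / z) + 2 * θ * (1 / (z + 1)) := by gcongr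
      _ ≤ 1 / (z + θ) := by
          have hz0 : 0 < z := by linarith
          have hd : 1 / (z + θ) - ((1 - 2 * θ) * (1 / z) + 2 * θ * (1 / (z + 1)))
              = θ * (z - 1 + 2 * θ) / (z * (z + 1) * (z + θ)) := by
            have : z + θ ≠ 0 := by positivity
            field_simp; ring
          have : 0 ≤ θ * (z - 1 + 2 * θ) / (z * (z + 1) * (z + θ)) :=
            div_nonneg (mul_nonneg hθ0 (by linarith)) (by positivity)
          linarith

theorem Ex_flex_sqrt {p : ℝ} (h0 : 0 ≤ p) (h1 : p ≤ 1) {s : ℕ} (hs : 0 < s) (P : Finset ℕ)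
    (hP : ∀ i ∈ P, ∀ j ∈ P, i + s ≠ j) :
    Ex p (P ∪ P.image (· + s)) (fun B => 1 / Real.sqrt (flc P s B + 1))
      ≤ 1 / Real.sqrt (1 + p * (1 - p) * P.card) := by
  set y := 1 + p * (1 - p) * P.card with hy
  have hy1 : 1 ≤ y := by
    have := mul_nonneg (mul_nonneg h0 (by linarith : 0 ≤ 1 - p)) (Nat.cast_nonneg (α := ℝ) P.card)
    linarith
  have hsy : 0 < Real.sqrt y := Real.sqrt_pos.2 (by linarith)
  have hsy2 : Real.sqrt y * Real.sqrt y = y := Real.mul_self_sqrt (by linarith)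
  have h := Ex_flex h0 h1 hs P hP 0 le_rfl
  simp only [zero_add] at h
  rw [← hy] at h
  calc Ex p (P ∪ P.image (· + s)) (fun B => 1 / Real.sqrt (flc P s B + 1))
      ≤ Ex p (P ∪ P.image (· + s)) (fun B => (Real.sqrt y / 2) * (1 / (1 + (flc P s B : ℝ)))
          + 1 / (2 * Real.sqrt y)) := by
        apply Ex_mono h0 h1
        intro B _
        have hm : (0:ℝ) ≤ flc P s B := Nat.cast_nonneg _
        set u := Real.sqrt ((flc P s B : ℝ) + 1) with hu
        have hu0 : 0 < u := Real.sqrt_pos.2 (by linarith)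
        have hu2 : u * u = (flc P s B : ℝ) + 1 := Real.mul_self_sqrt (by linarith)
        rw [add_comm (1:ℝ), ← hu2]
        have : Real.sqrt y / 2 * (1 / (u * u)) + 1 / (2 * Real.sqrt y) - 1 / u
            = (Real.sqrt y - u) ^ 2 / (2 * Real.sqrt y * (u * u)) := by
          field_simp; ring
        have h3 : 0 ≤ (Real.sqrt y - u) ^ 2 / (2 * Real.sqrt y * (u * u)) := by positivity
        linarith
    _ = (Real.sqrt y / 2) * Ex p (P ∪ P.image (· + s)) (fun B => 1 / (1 + (flc P s B : ℝ)))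
          + 1 / (2 * Real.sqrt y) := by rw [Ex_add, Ex_mul, Ex_const]
    _ ≤ (Real.sqrt y / 2) * (1 / y) + 1 / (2 * Real.sqrt y) := by gcongr
    _ = 1 / Real.sqrt y := by
        rw [show (1:ℝ) / y = 1 / (Real.sqrt y * Real.sqrt y) by rw [hsy2]]
        field_simp; ring

/-- sum of the elements -/
def sm (B : Finset ℕ) : ℤ := ∑ x ∈ B, (x : ℤ)

theorem sm_union {B C : Finset ℕ} (h : Disjoint B C) : sm (B ∪ C) = sm B + sm C :=
  Finset.sum_union h

theorem swap_avg {p : ℝ} {s : ℕ} (P : Finset ℕ)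
    (hP : ∀ i ∈ P, ∀ j ∈ P, i + s ≠ j) (H : ℤ → ℕ → ℝ) :
    Ex p (P ∪ P.image (· + s)) (fun B => H (sm B) B.card)
      = Ex p (P ∪ P.image (· + s)) (fun B => Ex (1/2) P (fun T =>
        H (sm B + s * (((T ∩ P.filter (· ∈ B)).card : ℤ) - (T ∩ P.filter (· + s ∈ B)).card))
          B.card)) := by
  rw [Ex_comm, ← Ex_const (p := 1/2) (I := P) (Ex p (P ∪ P.image (· + s)) (fun B => H (sm B) B.card))]
  apply Ex_congr
  intro T hT
  set g : ℕ → ℕ := fun x => if x ∈ T then x + s else if x ∈ T.image (· + s) then x - s else x with hg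
  have hdis : ∀ x ∈ T, x ∉ T.image (· + s) := by
    intro x hx h
    obtain ⟨y, hy, rfl⟩ := Finset.mem_image.1 h
    exact hP y (hT hy) _ (hT hx) rfl
  have g1 : ∀ x ∈ T, g x = x + s := fun x hx => by simp only [hg]; rw [if_pos hx]
  have g2 : ∀ x ∈ T, g (x + s) = x := fun x hx => by
    simp only [hg]
    rw [if_neg (fun h => hP x (hT hx) _ (hT h) rfl), if_pos (Finset.mem_image.2 ⟨x, hx, rfl⟩)]
    omega
  have g3 : ∀ x, x ∉ T → x ∉ T.image (· + s) → g x = x := fun x h1 h2 => by
    simp only [hg]; rw [if_neg h1, if_neg h2]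
  have hinvol : ∀ x, g (g x) = x := by
    intro x
    by_cases hx : x ∈ T
    · rw [g1 x hx, g2 x hx]
    · by_cases hx2 : x ∈ T.image (· + s)
      · obtain ⟨y, hy, rfl⟩ := Finset.mem_image.1 hx2
        rw [g2 y hy, g1 y hy]
      · rw [g3 x hx hx2, g3 x hx hx2]
  have hmap : ∀ x ∈ P ∪ P.image (· + s), g x ∈ P ∪ P.image (· + s) := by
    intro x hx
    by_cases h1 : x ∈ T
    · rw [g1 x h1]
      exact Finset.mem_union_right _ (Finset.mem_image.2 ⟨x, hT h1, rfl⟩)
    · by_cases h2 : x ∈ T.image (· + s)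
      · obtain ⟨y, hy, rfl⟩ := Finset.mem_image.1 h2
        rw [g2 y hy]; exact Finset.mem_union_left _ (hT hy)
      · rw [g3 x h1 h2]; exact hx
  have hinj : Set.InjOn g (P ∪ P.image (· + s) : Finset ℕ) := fun x _ y _ h => by
    rw [← hinvol x, ← hinvol y, h]
  rw [← Ex_image hinj hmap]
  apply Ex_congr
  intro B hB
  have hcard : (B.image g).card = B.card :=
    Finset.card_image_of_injective _ (fun x y h => by rw [← hinvol x, ← hinvol y, h])
  have hsum : sm (B.image g) = sm B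
      + s * (((T ∩ P.filter (· ∈ B)).card : ℤ) - (T ∩ P.filter (· + s ∈ B)).card) := by
    unfold sm
    rw [Finset.sum_image (fun x _ y _ h => by rw [← hinvol x, ← hinvol y, h])]
    have h1 : ∀ x ∈ B, ((g x : ℕ) : ℤ) = x + (s * (if x ∈ T then 1 else 0)
        - s * (if x ∈ T.image (· + s) then 1 else 0)) := by
      intro x _
      by_cases h1 : x ∈ T
      · rw [g1 x h1, if_pos h1, if_neg (hdis x h1)]; push_cast; ring
      · by_cases h2 : x ∈ T.image (· + s)
        · rw [if_neg h1, if_pos h2]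
          obtain ⟨y, hy, rfl⟩ := Finset.mem_image.1 h2
          rw [g2 y hy]; push_cast; ring
        · rw [g3 x h1 h2, if_neg h1, if_neg h2]; ring
    rw [Finset.sum_congr rfl h1, Finset.sum_add_distrib, Finset.sum_sub_distrib,
      ← Finset.mul_sum, ← Finset.mul_sum]
    have h2 : ∑ x ∈ B, (if x ∈ T then (1:ℤ) else 0) = (T ∩ P.filter (· ∈ B)).card := by
      rw [Finset.sum_boole]
      congr 2
      ext x; simp only [Finset.mem_filter, Finset.mem_inter]
      exact ⟨fun h => ⟨h.2, hT h.2, h.1⟩, fun h => ⟨h.2.2, h.1⟩⟩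
    have h3 : ∑ x ∈ B, (if x ∈ T.image (· + s) then (1:ℤ) else 0)
        = (T ∩ P.filter (· + s ∈ B)).card := by
      rw [Finset.sum_boole]
      congr 1
      have : (B.filter (· ∈ T.image (· + s))) = (T ∩ P.filter (· + s ∈ B)).image (· + s) := by
        ext x
        simp only [Finset.mem_filter, Finset.mem_inter, Finset.mem_image]
        constructor
        · rintro ⟨h, y, hy, rfl⟩
          exact ⟨y, ⟨hy, hT hy, h⟩, rfl⟩
        · rintro ⟨y, ⟨hy, _, h⟩, rfl⟩
          exact ⟨h, y, hy, rfl⟩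
      rw [this, Finset.card_image_of_injective _ (fun x y h => by simpa using h)]
    rw [h2, h3]; ring
  rw [hsum, hcard]

/-! ### rotations -/

/-- cyclic shift of the block `(k, k + s]` -/
def rot (k s r : ℕ) (x : ℕ) : ℕ := k + 1 + (x - k - 1 + r) % s

theorem rot_inj {k s r : ℕ} : Set.InjOn (rot k s r) (Finset.Ioc k (k + s) : Finset ℕ) := by
  intro x hx y hy h
  simp only [Finset.coe_Ioc, Set.mem_Ioc] at hx hy
  unfold rot at h
  have h1 : (x - k - 1 + r) % s = (y - k - 1 + r) % s := by omega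
  have h2 : (x - k - 1 + r) ≡ (y - k - 1 + r) [MOD s] := h1
  have h3 := Nat.ModEq.add_right_cancel' r h2
  have h4 : x - k - 1 = y - k - 1 := by
    have a1 : (x - k - 1) % s = x - k - 1 := Nat.mod_eq_of_lt (by omega)
    have a2 : (y - k - 1) % s = y - k - 1 := Nat.mod_eq_of_lt (by omega)
    have := h3
    unfold Nat.ModEq at this
    rw [a1, a2] at this
    exact this
  omega

theorem rot_map {k s r : ℕ} (hs : 0 < s) : ∀ x ∈ Finset.Ioc k (k + s),
    rot k s r x ∈ Finset.Ioc k (k + s) := by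
  intro x _
  have := Nat.mod_lt (x - k - 1 + r) hs
  rw [Finset.mem_Ioc]; unfold rot; omega

theorem rot_sum {k s r : ℕ} {B : Finset ℕ} (hB : B ⊆ Finset.Ioc k (k + s)) :
    (s : ℤ) ∣ sm (B.image (rot k s r)) - (sm B + r * B.card) := by
  unfold sm
  rw [Finset.sum_image (fun x hx y hy h => rot_inj (by exact_mod_cast hB hx) (by exact_mod_cast hB hy) h)]
  have : ∑ x ∈ B, ((rot k s r x : ℕ) : ℤ) - (∑ x ∈ B, (x:ℤ) + r * B.card)
      = ∑ x ∈ B, (((rot k s r x : ℕ) : ℤ) - (x + r)) := by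
    rw [Finset.sum_sub_distrib, Finset.sum_add_distrib, Finset.sum_const, nsmul_eq_mul]; ring
  rw [this]
  apply Finset.dvd_sum
  intro x hx
  have hx' := Finset.mem_Ioc.1 (hB hx)
  unfold rot
  have h1 := Nat.div_add_mod (x - k - 1 + r) s
  refine ⟨-(((x - k - 1 + r) / s : ℕ) : ℤ), ?_⟩
  have h2 : (((x - k - 1 + r : ℕ)) : ℤ) = x - k - 1 + r := by omega
  have h3 : (s:ℤ) * (((x - k - 1 + r) / s : ℕ) : ℤ) + (((x - k - 1 + r) % s : ℕ) : ℤ)
      = x - k - 1 + r := by rw [← h2]; exact_mod_cast h1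
  push_cast at h3 ⊢
  linarith

/-! ### the atom bound -/

theorem block_atom {p : ℝ} (h0 : 0 ≤ p) (h1 : p ≤ 1) {s : ℕ} (hs : s.Prime) (k : ℕ)
    (f : ℕ → ℤ) (a : ℤ) (c : ℕ) :
    Ex p (Finset.Ioc k (k + s)) (fun B => Ex p (Finset.Ioc (k + s) (k + 3 * s)) (fun C =>
      if a + sm B + sm C = f (c + B.card + C.card) then 1 else 0))
      ≤ (1 - p) ^ s + p ^ s + 1 / (s * Real.sqrt (1 + p * (1 - p) * s)) := by
  have hs0 : 0 < s := hs.pos
  have hsR : (0:ℝ) < s := by exact_mod_cast hs0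
  set J := Finset.Ioc k (k + s) with hJ
  set P := Finset.Ioc (k + s) (k + 2 * s) with hPdef
  have hJc : J.card = s := by rw [hJ, Nat.card_Ioc]; omega
  have hPc : P.card = s := by rw [hPdef, Nat.card_Ioc]; omega
  have hQ : Finset.Ioc (k + s) (k + 3 * s) = P ∪ P.image (· + s) := by
    rw [hPdef]
    ext x
    simp only [Finset.mem_Ioc, Finset.mem_union, Finset.mem_image]
    constructor
    · intro h
      by_cases h2 : x ≤ k + 2 * s
      · exact Or.inl ⟨h.1, h2⟩
      · exact Or.inr ⟨x - s, by omega, by omega⟩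
    · rintro (h | ⟨y, hy, rfl⟩) <;> omega
  have hP : ∀ i ∈ P, ∀ j ∈ P, i + s ≠ j := by
    intro i hi j hj
    rw [hPdef, Finset.mem_Ioc] at hi hj
    omega
  rw [hQ]
  set Q := P ∪ P.image (· + s) with hQdef
  -- the inner expectation
  set Ψ : ℤ → ℕ → ℝ := fun t m => Ex p Q (fun C =>
      if a + t + sm C = f (c + m + C.card) then (1:ℝ) else 0) with hΨ
  have hΨ1 : ∀ t m, Ψ t m ≤ 1 := fun t m => Ex_le_one h0 h1 (fun C _ => by split_ifs <;> norm_num)
  have hΨ2 : ∀ t m, Ψ t m = Ex p Q (fun C => Ex (1/2) P (fun T =>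
      if a + t + (sm C + s * (((T ∩ P.filter (· ∈ C)).card : ℤ) - (T ∩ P.filter (· + s ∈ C)).card))
        = f (c + m + C.card) then (1:ℝ) else 0)) := fun t m =>
    swap_avg P hP (fun z n => if a + t + z = f (c + m + n) then (1:ℝ) else 0)
  set E := Ex p Q (fun C => 1 / Real.sqrt (flc P s C + 1)) with hE
  have hE0 : 0 ≤ E := Ex_nonneg h0 h1 (fun C _ => by positivity)
  have hEle : E ≤ 1 / Real.sqrt (1 + p * (1 - p) * s) := by
    have := Ex_flex_sqrt h0 h1 hs0 P hP
    rwa [hPc] at this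
  -- average over rotations
  have hrot : (s:ℝ) * Ex p J (fun B => Ψ (sm B) B.card)
      = Ex p J (fun B => ∑ r ∈ Finset.range s, Ψ (sm (B.image (rot k s r))) B.card) := by
    rw [Ex_sum]
    have : ∀ r ∈ Finset.range s, Ex p J (fun B => Ψ (sm (B.image (rot k s r))) B.card)
        = Ex p J (fun B => Ψ (sm B) B.card) := by
      intro r _
      rw [← Ex_image (p := p) (f := fun B => Ψ (sm B) B.card) (rot_inj (k := k) (s := s) (r := r))
        (rot_map hs0)]
      apply Ex_congr
      intro B hB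
      rw [Finset.card_image_of_injOn (rot_inj.mono (by exact_mod_cast hB))]
    rw [Finset.sum_congr rfl this, Finset.sum_const, Finset.card_range, nsmul_eq_mul]
  -- the key bound
  have hkey : ∀ B ⊆ J, 0 < B.card → B.card < s →
      ∑ r ∈ Finset.range s, Ψ (sm (B.image (rot k s r))) B.card ≤ E := by
    intro B hB hB0 hB1
    simp only [hΨ2]
    rw [← Ex_sum]
    apply Ex_mono h0 h1
    intro C _
    set κ : ℤ := f (c + B.card + C.card) - a - sm C with hκ
    have hone : ∀ r : ℕ, Ex (1/2) P (fun T =>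
      if a + sm (B.image (rot k s r)) + (sm C + s * (((T ∩ P.filter (· ∈ C)).card : ℤ)
        - (T ∩ P.filter (· + s ∈ C)).card)) = f (c + B.card + C.card) then (1:ℝ) else 0)
        ≤ if (s:ℤ) ∣ κ - sm (B.image (rot k s r)) then 1 / Real.sqrt (flc P s C + 1) else 0 := by
      intro r
      split_ifs with hdvd
      · obtain ⟨z, hz⟩ := hdvd
        have hlo := LO P (P.filter (· ∈ C)) (P.filter (· + s ∈ C)) (Finset.filter_subset _ _)
          (Finset.filter_subset _ _) z
        have hF : (P.filter (· ∈ C) \ P.filter (· + s ∈ C)) ∪ (P.filter (· + s ∈ C) \ P.filter (· ∈ C))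
            = P.filter (fun i => ¬ (i ∈ C ↔ i + s ∈ C)) := by
          ext x
          simp only [Finset.mem_union, Finset.mem_sdiff, Finset.mem_filter]
          tauto
        rw [hF] at hlo
        refine le_trans (le_of_eq ?_) hlo
        apply Ex_congr
        intro T _
        have hsz : (s:ℤ) ≠ 0 := by exact_mod_cast hs0.ne'
        have : (a + sm (B.image (rot k s r)) + (sm C + s * (((T ∩ P.filter (· ∈ C)).card : ℤ)
          - (T ∩ P.filter (· + s ∈ C)).card)) = f (c + B.card + C.card))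
          ↔ (((T ∩ P.filter (· ∈ C)).card : ℤ) - (T ∩ P.filter (· + s ∈ C)).card = z) := by
          constructor
          · intro h
            apply mul_left_cancel₀ hsz
            rw [← hz, hκ, ← h]; ring
          · intro h
            rw [h, ← hz, hκ]; ring
        simp only [this]
      · apply le_of_eq
        refine Eq.trans ?_ (Ex_const (p := 1/2) (I := P) 0)
        apply Ex_congr
        intro T _
        rw [if_neg]
        intro h
        apply hdvd
        refine ⟨((T ∩ P.filter (· ∈ C)).card : ℤ) - (T ∩ P.filter (· + s ∈ C)).card, ?_⟩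
        rw [hκ, ← h]; ring
    refine (Finset.sum_le_sum fun r _ => hone r).trans ?_
    rw [← Finset.sum_filter, Finset.sum_const, nsmul_eq_mul]
    have hcard : ((Finset.range s).filter fun r : ℕ => (s:ℤ) ∣ κ - sm (B.image (rot k s r))).card ≤ 1 := by
      rw [Finset.card_le_one]
      intro r hr r' hr'
      rw [Finset.mem_filter, Finset.mem_range] at hr hr'
      have d1 := rot_sum (r := r) hB
      have d2 := rot_sum (r := r') hB
      have d3 : (s:ℤ) ∣ ((r:ℤ) - r') * B.card := by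
        have e : ((r:ℤ) - r') * B.card = (κ - sm (B.image (rot k s r')))
            - (κ - sm (B.image (rot k s r)))
            + (sm (B.image (rot k s r')) - (sm B + r' * B.card))
            - (sm (B.image (rot k s r)) - (sm B + r * B.card)) := by ring
        rw [e]
        exact ((hr'.2.sub hr.2).add d2).sub d1
      have hsp : Prime (s:ℤ) := Nat.prime_iff_prime_int.1 hs
      rcases hsp.dvd_or_dvd d3 with h | h
      · have h4 : ((r:ℤ) - r') = 0 := by
          apply Int.eq_zero_of_abs_lt_dvd h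
          rw [abs_lt]; constructor <;> omega
        omega
      · have h5 : s ∣ B.card := by exact_mod_cast h
        have := Nat.le_of_dvd hB0 h5
        omega
    have hc1 : ((((Finset.range s).filter fun r : ℕ => (s:ℤ) ∣ κ - sm (B.image (rot k s r))).card : ℕ) : ℝ)
        ≤ 1 := by exact_mod_cast hcard
    have hpos : 0 ≤ 1 / Real.sqrt ((flc P s C : ℝ) + 1) := by positivity
    calc _ ≤ 1 * (1 / Real.sqrt ((flc P s C : ℝ) + 1)) := mul_le_mul_of_nonneg_right hc1 hpos
      _ = _ := one_mul _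
  -- the exceptional sets
  have hexc : Ex p J (fun B => if B.card = 0 ∨ B.card = s then (1:ℝ) else 0) ≤ (1 - p) ^ s + p ^ s := by
    have e1 : Ex p J (fun B => if B = ∅ then (1:ℝ) else 0) = (1 - p) ^ s := by
      unfold Ex
      rw [Finset.sum_eq_single ∅]
      · simp [hJc]
      · intro B _ hB; simp [hB]
      · intro h; exact absurd (Finset.empty_mem_powerset _) h
    have e2 : Ex p J (fun B => if B = J then (1:ℝ) else 0) = p ^ s := by
      unfold Ex
      rw [Finset.sum_eq_single J]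
      · simp [hJc]
      · intro B _ hB; simp [hB]
      · intro h; exact absurd (Finset.mem_powerset_self _) h
    rw [← e1, ← e2, ← Ex_add]
    apply Ex_mono h0 h1
    intro B hB
    by_cases hb0 : B = ∅
    · simp only [hb0, Finset.card_empty, true_or, if_true]
      have : (0:ℝ) ≤ if (∅ : Finset ℕ) = J then 1 else 0 := by split_ifs <;> norm_num
      linarith
    · by_cases hb1 : B = J
      · rw [if_neg hb0, if_pos hb1, zero_add]; split_ifs <;> norm_num
      · rw [if_neg hb0, if_neg hb1, if_neg]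
        · norm_num
        · rintro (h | h)
          · exact hb0 (Finset.card_eq_zero.1 h)
          · exact hb1 (Finset.eq_of_subset_of_card_le hB (by rw [hJc, h]))
  have hfin : (s:ℝ) * Ex p J (fun B => Ψ (sm B) B.card)
      ≤ s * ((1 - p) ^ s + p ^ s) + E := by
    rw [hrot]
    calc Ex p J (fun B => ∑ r ∈ Finset.range s, Ψ (sm (B.image (rot k s r))) B.card)
        ≤ Ex p J (fun B => s * (if B.card = 0 ∨ B.card = s then (1:ℝ) else 0) + E) := by
          apply Ex_mono h0 h1
          intro B hB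
          by_cases hb : B.card = 0 ∨ B.card = s
          · rw [if_pos hb, mul_one]
            have : ∑ r ∈ Finset.range s, Ψ (sm (B.image (rot k s r))) B.card
                ≤ ∑ _r ∈ Finset.range s, (1:ℝ) := Finset.sum_le_sum fun r _ => hΨ1 _ _
            rw [Finset.sum_const, Finset.card_range, nsmul_eq_mul, mul_one] at this
            linarith
          · rw [if_neg hb, mul_zero, zero_add]
            push Not at hb
            have hle := Finset.card_le_card hB
            rw [hJc] at hle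
            exact hkey B hB (by omega) (by omega)
      _ = s * Ex p J (fun B => if B.card = 0 ∨ B.card = s then (1:ℝ) else 0) + E := by
          rw [Ex_add, Ex_mul, Ex_const]
      _ ≤ _ := by gcongr
  have : Ex p J (fun B => Ψ (sm B) B.card) ≤ (1 - p) ^ s + p ^ s + E / s := by
    have h2 : Ex p J (fun B => Ψ (sm B) B.card) ≤ (s * ((1 - p) ^ s + p ^ s) + E) / s := by
      rw [le_div_iff₀ hsR]; linarith
    refine h2.trans (le_of_eq ?_)
    field_simp
  refine this.trans ?_
  have h3 : E / s ≤ 1 / (s * Real.sqrt (1 + p * (1 - p) * s)) := by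
    rw [div_le_iff₀ hsR]
    refine hEle.trans (le_of_eq ?_)
    field_simp
  linarith

/-- indicator that the sum is a given function of the cardinality -/
noncomputable def at' (f : ℕ → ℤ) (B : Finset ℕ) : ℝ := if sm B = f B.card then 1 else 0

theorem atom_prime {p : ℝ} (h0 : 0 ≤ p) (h1 : p ≤ 1) {s : ℕ} (hs : s.Prime) (k e : ℕ)
    (he : 3 * s ≤ e) (f : ℕ → ℤ) :
    Ex p (Finset.Ioc k (k + e)) (at' f)
      ≤ (1 - p) ^ s + p ^ s + 1 / (s * Real.sqrt (1 + p * (1 - p) * s)) := by
  set R := Finset.Ioc (k + 3 * s) (k + e) with hR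
  have hI : Finset.Ioc k (k + e) = R ∪ (Finset.Ioc k (k + s) ∪ Finset.Ioc (k + s) (k + 3 * s)) := by
    ext x; simp only [hR, Finset.mem_union, Finset.mem_Ioc]; omega
  have d1 : Disjoint R (Finset.Ioc k (k + s) ∪ Finset.Ioc (k + s) (k + 3 * s)) := by
    rw [Finset.disjoint_left]; intro x
    simp only [hR, Finset.mem_union, Finset.mem_Ioc]; omega
  have d2 : Disjoint (Finset.Ioc k (k + s)) (Finset.Ioc (k + s) (k + 3 * s)) := by
    rw [Finset.disjoint_left]; intro x
    simp only [Finset.mem_Ioc]; omega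
  rw [hI, Ex_union d1]
  calc _ ≤ Ex p R (fun _ => (1 - p) ^ s + p ^ s + 1 / (s * Real.sqrt (1 + p * (1 - p) * s))) := by
        apply Ex_mono h0 h1
        intro A hA
        rw [Ex_union d2]
        refine le_trans (le_of_eq ?_) (block_atom h0 h1 hs k f (sm A) A.card)
        apply Ex_congr; intro B hB
        apply Ex_congr; intro C hC
        have dBC : Disjoint B C := d2.mono hB hC
        have dA : Disjoint A (B ∪ C) := d1.mono hA (Finset.union_subset_union hB hC)
        unfold at'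
        rw [sm_union dA, sm_union dBC, Finset.card_union_of_disjoint dA,
          Finset.card_union_of_disjoint dBC, ← add_assoc, ← add_assoc]
    _ = _ := Ex_const _

/-- the atom bound for all intervals -/
theorem atom {p : ℝ} (h0 : 0 < p) (h1 : p < 1) : ∃ C₁ : ℝ, 0 < C₁ ∧ ∀ (k e : ℕ), 0 < e →
    ∀ f : ℕ → ℤ, Ex p (Finset.Ioc k (k + e)) (at' f) ≤ C₁ / (e * Real.sqrt e) := by
  set θ := p * (1 - p) with hθ
  have hθ0 : 0 < θ := mul_pos h0 (by linarith)
  set r := max p (1 - p) with hr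
  have hr1 : r < 1 := max_lt h1 (by linarith)
  have hr0 : 0 < r := h0.trans_le (le_max_left _ _)
  -- geometric decay
  obtain ⟨D, hD0, hD⟩ : ∃ D : ℝ, 0 < D ∧ ∀ n : ℕ, (n:ℝ) ^ 2 * r ^ n ≤ D := by
    have h := tendsto_pow_const_mul_const_pow_of_abs_lt_one 2 (r := r) (by rw [abs_of_pos hr0]; exact hr1)
    obtain ⟨D, hD⟩ := h.bddAbove_range
    refine ⟨max D 1, lt_max_of_lt_right one_pos, fun n => ?_⟩
    exact (hD ⟨n, rfl⟩).trans (le_max_left _ _)
  refine ⟨36 + 72 * D + 36 / Real.sqrt θ, by positivity, ?_⟩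
  intro k e he f
  have heR : (1:ℝ) ≤ e := by exact_mod_cast he
  have hse : 1 ≤ Real.sqrt e := by rw [Real.one_le_sqrt]; exact heR
  have hse2 : Real.sqrt e * Real.sqrt e = e := Real.mul_self_sqrt (by linarith)
  have hsele : Real.sqrt e ≤ e := by nlinarith
  have hden : 0 < (e:ℝ) * Real.sqrt e := by positivity
  by_cases he6 : e < 6
  · have hle1 : Ex p (Finset.Ioc k (k + e)) (at' f) ≤ 1 :=
      Ex_le_one h0.le h1.le (fun B _ => by unfold at'; split_ifs <;> norm_num)
    refine hle1.trans ?_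
    rw [le_div_iff₀ hden, one_mul]
    have he5 : (e:ℝ) ≤ 5 := by exact_mod_cast (by omega : e ≤ 5)
    have h2 : (e:ℝ) * Real.sqrt e ≤ 5 * 5 := mul_le_mul he5 (hsele.trans he5) (by positivity) (by norm_num)
    have h3 : 0 < 36 / Real.sqrt θ := by positivity
    linarith
  · push Not at he6
    obtain ⟨s, hs, hs1, hs2⟩ := Nat.exists_prime_lt_and_le_two_mul (e / 6) (by omega)
    have h3s : 3 * s ≤ e := by omega
    have h6s : e ≤ 6 * s := by omega
    have h6R : (e:ℝ) ≤ 6 * s := by exact_mod_cast h6s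
    have hs0 : (0:ℝ) < s := by exact_mod_cast hs.pos
    refine (atom_prime h0.le h1.le hs k e h3s f).trans ?_
    have hp1 : (1 - p) ^ s ≤ r ^ s := pow_le_pow_left₀ (by linarith) (le_max_right _ _) s
    have hp2 : p ^ s ≤ r ^ s := pow_le_pow_left₀ h0.le (le_max_left _ _) s
    have hrs : r ^ s ≤ 36 * D / (e * Real.sqrt e) := by
      rw [le_div_iff₀ hden]
      have h4 := hD s
      have h5 : (e:ℝ) * Real.sqrt e ≤ 36 * (s:ℝ) ^ 2 := by nlinarith
      calc r ^ s * (e * Real.sqrt e) ≤ r ^ s * (36 * (s:ℝ) ^ 2) :=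
            mul_le_mul_of_nonneg_left h5 (by positivity)
        _ = 36 * ((s:ℝ) ^ 2 * r ^ s) := by ring
        _ ≤ 36 * D := by linarith
    have hlast : 1 / (s * Real.sqrt (1 + θ * s)) ≤ 36 / Real.sqrt θ / (e * Real.sqrt e) := by
      rw [div_div, div_le_div_iff₀ (by positivity) (by positivity), one_mul]
      have h7 : Real.sqrt θ * Real.sqrt e ≤ 6 * Real.sqrt (1 + θ * s) := by
        rw [← Real.sqrt_mul hθ0.le]
        have : (6:ℝ) * Real.sqrt (1 + θ * s) = Real.sqrt (36 * (1 + θ * s)) := by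
          rw [Real.sqrt_mul (by norm_num), show (36:ℝ) = 6 ^ 2 by norm_num,
            Real.sqrt_sq (by norm_num)]
        rw [this]
        apply Real.sqrt_le_sqrt
        nlinarith
      calc Real.sqrt θ * (e * Real.sqrt e) = e * (Real.sqrt θ * Real.sqrt e) := by ring
        _ ≤ (6 * s) * (6 * Real.sqrt (1 + θ * s)) := by gcongr
        _ = 36 * (s * Real.sqrt (1 + θ * s)) := by ring
    have hfin : (36:ℝ) / (e * Real.sqrt e) ≥ 0 := by positivity
    calc (1 - p) ^ s + p ^ s + 1 / (s * Real.sqrt (1 + θ * s))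
        ≤ 36 * D / (e * Real.sqrt e) + 36 * D / (e * Real.sqrt e)
          + 36 / Real.sqrt θ / (e * Real.sqrt e) := by linarith
      _ = (72 * D + 36 / Real.sqrt θ) / (e * Real.sqrt e) := by ring
      _ ≤ (36 + 72 * D + 36 / Real.sqrt θ) / (e * Real.sqrt e) := by
          apply div_le_div_of_nonneg_right _ hden.le; linarith

/-! ### deviations and separated sets -/

/-- the deviation of the sum from the centre times the cardinality (doubled) -/
def dev (k e : ℕ) (B : Finset ℕ) : ℤ := 2 * sm B - (2 * k + e + 1) * B.card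

theorem dev_eq (k e : ℕ) (B : Finset ℕ) :
    (dev k e B : ℝ) = ∑ x ∈ B, (2 * (x:ℝ) - (2 * k + e + 1)) := by
  unfold dev sm
  push_cast
  rw [Finset.sum_sub_distrib, ← Finset.mul_sum, Finset.sum_const, nsmul_eq_mul]
  ring

theorem sum_centre (k e : ℕ) : ∑ x ∈ Finset.Ioc k (k + e), (2 * (x:ℝ) - (2 * k + e + 1)) = 0 := by
  have h : ∀ e : ℕ, ∑ x ∈ Finset.Ioc k (k + e), (2 * (x:ℝ)) = e * (2 * k + e + 1) := by
    intro e
    induction e with
    | zero => simp
    | succ e ih =>
      rw [← add_assoc, Finset.sum_Ioc_succ_top (by omega), ih]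
      push_cast; ring
  rw [Finset.sum_sub_distrib, h, Finset.sum_const, Nat.card_Ioc, nsmul_eq_mul]
  have : k + e - k = e := by omega
  rw [this]; ring

theorem abs_centre {k e x : ℕ} (hx : x ∈ Finset.Ioc k (k + e)) :
    |2 * (x:ℝ) - (2 * k + e + 1)| ≤ e := by
  rw [Finset.mem_Ioc] at hx
  have h1 : (k:ℝ) + 1 ≤ x := by exact_mod_cast hx.1
  have h2 : (x:ℝ) ≤ k + e := by exact_mod_cast hx.2
  rw [abs_le]; constructor <;> linarith

theorem dev_var {p : ℝ} (h0 : 0 ≤ p) (h1 : p ≤ 1) (k e : ℕ) :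
    Ex p (Finset.Ioc k (k + e)) (fun B => (dev k e B : ℝ) ^ 2) ≤ (e:ℝ) ^ 3 := by
  simp only [dev_eq]
  rw [Ex_sq, sum_centre]
  have h2 : ∑ x ∈ Finset.Ioc k (k + e), (2 * (x:ℝ) - (2 * k + e + 1)) ^ 2
      ≤ ∑ x ∈ Finset.Ioc k (k + e), (e:ℝ) ^ 2 := by
    apply Finset.sum_le_sum
    intro x hx
    rw [← sq_abs]
    exact pow_le_pow_left₀ (abs_nonneg _) (abs_centre hx) 2
  rw [Finset.sum_const, Nat.card_Ioc, nsmul_eq_mul, Nat.add_sub_cancel_left] at h2
  have h3 : 0 ≤ ∑ x ∈ Finset.Ioc k (k + e), (2 * (x:ℝ) - (2 * k + e + 1)) ^ 2 :=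
    Finset.sum_nonneg fun x _ => sq_nonneg _
  have h4 : p * (1 - p) ≤ 1 := by nlinarith
  have h5 : 0 ≤ p * (1 - p) := mul_nonneg h0 (by linarith)
  nlinarith

theorem dev_abs {k e : ℕ} {B : Finset ℕ} (hB : B ⊆ Finset.Ioc k (k + e)) :
    |(dev k e B : ℝ)| ≤ (e:ℝ) ^ 2 := by
  rw [dev_eq]
  refine (Finset.abs_sum_le_sum_abs _ _).trans ?_
  have h1 : ∑ x ∈ B, |2 * (x:ℝ) - (2 * k + e + 1)| ≤ ∑ x ∈ B, (e:ℝ) :=
    Finset.sum_le_sum fun x hx => abs_centre (hB hx)
  rw [Finset.sum_const, nsmul_eq_mul] at h1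
  have h2 : (B.card : ℝ) ≤ e := by
    have := Finset.card_le_card hB
    rw [Nat.card_Ioc, Nat.add_sub_cancel_left] at this
    exact_mod_cast this
  have h3 : (0:ℝ) ≤ e := Nat.cast_nonneg _
  nlinarith

/-- `L`-separated sets -/
def Sep (L : ℝ) (V : Finset ℤ) : Prop := ∀ v ∈ V, ∀ v' ∈ V, v ≠ v' → L ≤ |(v:ℝ) - v'|

theorem sep_card {L Λ a : ℝ} (hL : 0 < L) {V : Finset ℤ} (hV : Sep L V)
    (h : ∀ v ∈ V, a ≤ (v:ℝ) ∧ (v:ℝ) ≤ a + Λ) : V.card ≤ ⌊Λ / L⌋₊ + 1 := by
  have hmap : ∀ v ∈ V, ⌊((v:ℝ) - a) / L⌋₊ ∈ Finset.range (⌊Λ / L⌋₊ + 1) := by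
    intro v hv
    rw [Finset.mem_range, Nat.lt_succ_iff]
    apply Nat.floor_le_floor
    apply div_le_div_of_nonneg_right _ hL.le
    linarith [(h v hv).2]
  have hinj : Set.InjOn (fun v : ℤ => ⌊((v:ℝ) - a) / L⌋₊) V := by
    intro v hv v' hv' heq
    by_contra hne
    have h1 := hV v hv v' hv' hne
    have hv0 : 0 ≤ ((v:ℝ) - a) / L := div_nonneg (by linarith [(h v hv).1]) hL.le
    have hv0' : 0 ≤ ((v':ℝ) - a) / L := div_nonneg (by linarith [(h v' hv').1]) hL.le
    have a1 := Nat.floor_le hv0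
    have a2 := Nat.lt_floor_add_one (((v:ℝ) - a) / L)
    have a3 := Nat.floor_le hv0'
    have a4 := Nat.lt_floor_add_one (((v':ℝ) - a) / L)
    simp only at heq
    rw [heq] at a1 a2
    have h2 : |((v:ℝ) - a) / L - ((v':ℝ) - a) / L| < 1 := by rw [abs_lt]; constructor <;> linarith
    rw [← sub_div, abs_div, abs_of_pos hL, div_lt_one hL] at h2
    have : (v:ℝ) - a - ((v':ℝ) - a) = v - v' := by ring
    rw [this] at h2
    linarith
  have := Finset.card_le_card_of_injOn _ hmap hinj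
  rwa [Finset.card_range] at this

theorem sep_prob {p C₁ : ℝ} (h0 : 0 ≤ p) (h1 : p ≤ 1)
    (hC : ∀ (k e : ℕ), 0 < e → ∀ f : ℕ → ℤ, Ex p (Finset.Ioc k (k + e)) (at' f) ≤ C₁ / (e * Real.sqrt e))
    {L Λ : ℝ} (hL : 0 < L) (hΛ : 0 ≤ Λ) {V : Finset ℤ} (hV : Sep L V) (k e : ℕ) (he : 0 < e) :
    Ex p (Finset.Ioc k (k + e)) (fun B => if sm B ∈ V ∧ |(dev k e B : ℝ)| ≤ Λ then 1 else 0)
      ≤ (Λ / L + 1) * (C₁ / (e * Real.sqrt e)) := by
  classical
  set Vm : ℕ → Finset ℤ := fun m => V.filter fun v => |2 * (v:ℝ) - (2 * k + e + 1) * m| ≤ Λ with hVm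
  have hcard : ∀ m, (Vm m).card ≤ ⌊Λ / L⌋₊ + 1 := by
    intro m
    apply sep_card (a := ((2 * k + e + 1) * m - Λ) / 2) hL
    · intro v hv v' hv' hne
      exact hV v (Finset.mem_filter.1 hv).1 v' (Finset.mem_filter.1 hv').1 hne
    · intro v hv
      have := abs_le.1 (Finset.mem_filter.1 hv).2
      constructor <;> linarith [this.1, this.2]
  have hpt : ∀ B ⊆ Finset.Ioc k (k + e), (if sm B ∈ V ∧ |(dev k e B : ℝ)| ≤ Λ then (1:ℝ) else 0)
      ≤ ∑ l ∈ Finset.range (⌊Λ / L⌋₊ + 1), at' (fun m => (Vm m).toList.getD l 0) B := by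
    intro B _
    have hnn : ∀ l ∈ Finset.range (⌊Λ / L⌋₊ + 1), 0 ≤ at' (fun m => (Vm m).toList.getD l 0) B := by
      intro l _; unfold at'; split_ifs <;> norm_num
    split_ifs with h
    · have hmem : sm B ∈ (Vm B.card).toList := by
        rw [Finset.mem_toList, hVm, Finset.mem_filter]
        refine ⟨h.1, ?_⟩
        have := h.2
        unfold dev at this
        push_cast at this
        exact this
      obtain ⟨l, hl, hget⟩ := List.getElem_of_mem hmem
      have hl' : l < ⌊Λ / L⌋₊ + 1 := by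
        rw [Finset.length_toList] at hl
        exact hl.trans_le (hcard _)
      have h1 : at' (fun m => (Vm m).toList.getD l 0) B = 1 := by
        unfold at'
        rw [if_pos]
        change sm B = (Vm B.card).toList.getD l 0
        rw [List.getD_eq_getElem _ _ hl, hget]
      rw [← h1]
      exact Finset.single_le_sum hnn (Finset.mem_range.2 hl')
    · exact Finset.sum_nonneg hnn
  calc _ ≤ Ex p (Finset.Ioc k (k + e)) (fun B =>
        ∑ l ∈ Finset.range (⌊Λ / L⌋₊ + 1), at' (fun m => (Vm m).toList.getD l 0) B) :=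
        Ex_mono h0 h1 hpt
    _ = ∑ l ∈ Finset.range (⌊Λ / L⌋₊ + 1), Ex p (Finset.Ioc k (k + e))
          (at' (fun m => (Vm m).toList.getD l 0)) := Ex_sum _ _
    _ ≤ ∑ _l ∈ Finset.range (⌊Λ / L⌋₊ + 1), C₁ / (e * Real.sqrt e) :=
        Finset.sum_le_sum fun l _ => hC k e he _
    _ = ((⌊Λ / L⌋₊ : ℝ) + 1) * (C₁ / (e * Real.sqrt e)) := by
        rw [Finset.sum_const, Finset.card_range, nsmul_eq_mul]; push_cast; ring
    _ ≤ _ := by
        have h2 : (⌊Λ / L⌋₊ : ℝ) ≤ Λ / L := Nat.floor_le (div_nonneg hΛ hL.le)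
        have h3 : 0 ≤ C₁ / (e * Real.sqrt e) := by
          refine le_trans ?_ (hC k e he (fun _ => 0))
          apply Ex_nonneg h0 h1
          intro B _; unfold at'; split_ifs <;> norm_num
        gcongr

/-! ### translates -/

/-- translate -/
def tr (Z : Finset ℤ) (t : ℤ) : Finset ℤ := Z.image (· + t)

theorem tr_card (Z : Finset ℤ) (t : ℤ) : (tr Z t).card = Z.card :=
  Finset.card_image_of_injective _ (fun x y h => by simpa using h)

theorem mem_tr {Z : Finset ℤ} {t v : ℤ} : v ∈ tr Z t ↔ v - t ∈ Z := by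
  unfold tr
  rw [Finset.mem_image]
  constructor
  · rintro ⟨z, hz, rfl⟩; simpa using hz
  · intro h; exact ⟨v - t, h, by ring⟩

/-- the number of new elements in a union -/
theorem new_lower (S : ℕ → Finset ℤ) (G : Finset ℤ) (Q : ℕ → Prop) [DecidablePred Q] (n : ℕ) :
    ∑ i ∈ Finset.range n, (if Q i then ((S i).card : ℝ) - (S i ∩ G).card
      - ∑ j ∈ Finset.range i, (if Q j then ((S i ∩ S j).card : ℝ) else 0) else 0)
      ≤ ((((Finset.range n).filter Q).biUnion S) \ G).card := by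
  induction n with
  | zero => simp
  | succ n ih =>
    rw [Finset.sum_range_succ]
    by_cases hQ : Q n
    · rw [if_pos hQ]
      set U := ((Finset.range n).filter Q).biUnion S with hU
      have e1 : ((Finset.range (n + 1)).filter Q).biUnion S = S n ∪ U := by
        rw [Finset.range_add_one, Finset.filter_insert, if_pos hQ, Finset.biUnion_insert]
      rw [e1]
      have e2 : (S n ∪ U) \ G = (U \ G) ∪ (S n \ (G ∪ U)) := by
        ext x; simp only [Finset.mem_sdiff, Finset.mem_union]; tauto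
      have e3 : Disjoint (U \ G) (S n \ (G ∪ U)) := by
        rw [Finset.disjoint_left]; intro x
        simp only [Finset.mem_sdiff, Finset.mem_union]; tauto
      rw [e2, Finset.card_union_of_disjoint e3]
      have e4 : (S n).card ≤ (S n \ (G ∪ U)).card + ((S n ∩ G).card + (S n ∩ U).card) := by
        have h1 : S n ⊆ (S n \ (G ∪ U)) ∪ ((S n ∩ G) ∪ (S n ∩ U)) := by
          intro x; simp only [Finset.mem_sdiff, Finset.mem_union, Finset.mem_inter]; tauto
        refine (Finset.card_le_card h1).trans ((Finset.card_union_le _ _).trans ?_)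
        gcongr
        exact Finset.card_union_le _ _
      have e5 : ((S n ∩ U).card : ℝ) ≤ ∑ j ∈ Finset.range n, (if Q j then ((S n ∩ S j).card : ℝ) else 0) := by
        have h1 : S n ∩ U = ((Finset.range n).filter Q).biUnion (fun j => S n ∩ S j) := by
          rw [hU, Finset.inter_biUnion]
        rw [h1, ← Finset.sum_filter]
        exact_mod_cast Finset.card_biUnion_le
      have e4' : ((S n).card : ℝ) ≤ (S n \ (G ∪ U)).card + ((S n ∩ G).card + (S n ∩ U).card) := by
        exact_mod_cast e4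
      push_cast
      linarith
    · rw [if_neg hQ, add_zero, Finset.range_add_one, Finset.filter_insert, if_neg hQ]
      exact ih

theorem Ex_mem {p : ℝ} {I : Finset ℕ} {y : ℕ} (hy : y ∈ I) :
    Ex p I (fun B => if y ∈ B then 1 else 0) = p := by
  have h := Ex_lin (p := p) (I := I) (fun x => if x = y then (1:ℝ) else 0)
  rw [Finset.sum_ite_eq' I y, if_pos hy, mul_one] at h
  refine Eq.trans ?_ h
  apply Ex_congr
  intro B _
  rw [Finset.sum_ite_eq' B y]

section hits

variable {p C₁ : ℝ} (h0 : 0 ≤ p) (h1 : p ≤ 1)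
  (hC : ∀ (k e : ℕ), 0 < e → ∀ f : ℕ → ℤ, Ex p (Finset.Ioc k (k + e)) (at' f) ≤ C₁ / (e * Real.sqrt e))
  {L : ℝ} (hL : 0 < L) {Z : Finset ℤ} (hZ : Sep L Z)

include h0 h1 hC hL hZ

theorem hit_bound (G : Finset ℤ) (T : ℤ) {Λ : ℝ} (hΛ : 0 < Λ) (k e : ℕ) (he : 0 < e) :
    Ex p (Finset.Ioc k (k + e)) (fun B => ((tr Z (T + sm B) ∩ G).card : ℝ))
      ≤ Z.card * ((e:ℝ) ^ 3 / Λ ^ 2) + G.card * ((Λ / L + 1) * (C₁ / (e * Real.sqrt e))) := by
  classical
  set V : ℤ → Finset ℤ := fun v => Z.image (fun z => v - T - z) with hVdef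
  have hV : ∀ v, Sep L (V v) := by
    intro v x hx y hy hne
    obtain ⟨z, hz, rfl⟩ := Finset.mem_image.1 hx
    obtain ⟨w, hw, rfl⟩ := Finset.mem_image.1 hy
    have hzw : w ≠ z := by rintro rfl; exact hne rfl
    have := hZ w hw z hz hzw
    refine this.trans (le_of_eq ?_)
    congr 1; push_cast; ring
  have hpt : ∀ B ⊆ Finset.Ioc k (k + e), ((tr Z (T + sm B) ∩ G).card : ℝ)
      ≤ (Z.card / Λ ^ 2) * (dev k e B : ℝ) ^ 2
        + ∑ v ∈ G, (if sm B ∈ V v ∧ |(dev k e B : ℝ)| ≤ Λ then (1:ℝ) else 0) := by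
    intro B _
    by_cases hd : |(dev k e B : ℝ)| ≤ Λ
    · have h2 : (tr Z (T + sm B) ∩ G).card
          ≤ (G.filter fun v => sm B ∈ V v ∧ |(dev k e B : ℝ)| ≤ Λ).card := by
        apply Finset.card_le_card
        intro v hv
        rw [Finset.mem_inter, mem_tr] at hv
        rw [Finset.mem_filter]
        refine ⟨hv.2, ?_, hd⟩
        rw [hVdef, Finset.mem_image]
        exact ⟨_, hv.1, by ring⟩
      have h3 : ((tr Z (T + sm B) ∩ G).card : ℝ)
          ≤ ∑ v ∈ G, (if sm B ∈ V v ∧ |(dev k e B : ℝ)| ≤ Λ then (1:ℝ) else 0) := by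
        rw [Finset.sum_boole]; exact_mod_cast h2
      have h4 : 0 ≤ (Z.card / Λ ^ 2) * (dev k e B : ℝ) ^ 2 := by positivity
      linarith
    · push Not at hd
      have h2 : ((tr Z (T + sm B) ∩ G).card : ℝ) ≤ Z.card := by
        have := Finset.card_le_card (Finset.inter_subset_left (s₁ := tr Z (T + sm B)) (s₂ := G))
        rw [tr_card] at this
        exact_mod_cast this
      have h3 : (Z.card : ℝ) ≤ (Z.card / Λ ^ 2) * (dev k e B : ℝ) ^ 2 := by
        have h5 : Λ ^ 2 ≤ (dev k e B : ℝ) ^ 2 := by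
          rw [← sq_abs (dev k e B : ℝ)]; exact pow_le_pow_left₀ hΛ.le hd.le 2
        rw [div_mul_eq_mul_div, le_div_iff₀ (by positivity)]
        exact mul_le_mul_of_nonneg_left h5 (Nat.cast_nonneg _)
      have h4 : 0 ≤ ∑ v ∈ G, (if sm B ∈ V v ∧ |(dev k e B : ℝ)| ≤ Λ then (1:ℝ) else 0) :=
        Finset.sum_nonneg fun v _ => by split_ifs <;> norm_num
      linarith
  calc _ ≤ Ex p (Finset.Ioc k (k + e)) (fun B => (Z.card / Λ ^ 2) * (dev k e B : ℝ) ^ 2
        + ∑ v ∈ G, (if sm B ∈ V v ∧ |(dev k e B : ℝ)| ≤ Λ then (1:ℝ) else 0)) :=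
        Ex_mono h0 h1 hpt
    _ = (Z.card / Λ ^ 2) * Ex p (Finset.Ioc k (k + e)) (fun B => (dev k e B : ℝ) ^ 2)
        + ∑ v ∈ G, Ex p (Finset.Ioc k (k + e))
          (fun B => if sm B ∈ V v ∧ |(dev k e B : ℝ)| ≤ Λ then (1:ℝ) else 0) := by
        rw [Ex_add, Ex_mul, Ex_sum]
    _ ≤ (Z.card / Λ ^ 2) * (e:ℝ) ^ 3 + ∑ _v ∈ G, ((Λ / L + 1) * (C₁ / (e * Real.sqrt e))) := by
        gcongr with v hv
        · exact dev_var h0 h1 k e
        · exact sep_prob h0 h1 hC hL hΛ.le (hV v) k e he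
    _ = _ := by rw [Finset.sum_const, nsmul_eq_mul]; ring

theorem coinc_bound (k e : ℕ) (he : 0 < e) :
    Ex p (Finset.Ioc k (k + e)) (fun B => ((tr Z (sm B) ∩ Z).card : ℝ))
      ≤ Z.card * (((e:ℝ) ^ 2 / L + 1) * (C₁ / (e * Real.sqrt e))) := by
  classical
  set V : ℤ → Finset ℤ := fun v => Z.image (fun z => v - z) with hVdef
  have hV : ∀ v, Sep L (V v) := by
    intro v x hx y hy hne
    obtain ⟨z, hz, rfl⟩ := Finset.mem_image.1 hx
    obtain ⟨w, hw, rfl⟩ := Finset.mem_image.1 hy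
    have hzw : w ≠ z := by rintro rfl; exact hne rfl
    have := hZ w hw z hz hzw
    refine this.trans (le_of_eq ?_)
    congr 1; push_cast; ring
  have hpt : ∀ B ⊆ Finset.Ioc k (k + e), ((tr Z (sm B) ∩ Z).card : ℝ)
      ≤ ∑ v ∈ Z, (if sm B ∈ V v ∧ |(dev k e B : ℝ)| ≤ (e:ℝ) ^ 2 then (1:ℝ) else 0) := by
    intro B hB
    have h2 : (tr Z (sm B) ∩ Z).card
        ≤ (Z.filter fun v => sm B ∈ V v ∧ |(dev k e B : ℝ)| ≤ (e:ℝ) ^ 2).card := by
      apply Finset.card_le_card
      intro v hv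
      rw [Finset.mem_inter, mem_tr] at hv
      rw [Finset.mem_filter]
      refine ⟨hv.2, ?_, dev_abs hB⟩
      rw [hVdef, Finset.mem_image]
      exact ⟨_, hv.1, by ring⟩
    rw [Finset.sum_boole]; exact_mod_cast h2
  calc _ ≤ Ex p (Finset.Ioc k (k + e)) (fun B =>
        ∑ v ∈ Z, (if sm B ∈ V v ∧ |(dev k e B : ℝ)| ≤ (e:ℝ) ^ 2 then (1:ℝ) else 0)) :=
        Ex_mono h0 h1 hpt
    _ = ∑ v ∈ Z, Ex p (Finset.Ioc k (k + e))
          (fun B => if sm B ∈ V v ∧ |(dev k e B : ℝ)| ≤ (e:ℝ) ^ 2 then (1:ℝ) else 0) := Ex_sum _ _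
    _ ≤ ∑ _v ∈ Z, (((e:ℝ) ^ 2 / L + 1) * (C₁ / (e * Real.sqrt e))) := by
        apply Finset.sum_le_sum
        intro v _
        exact sep_prob h0 h1 hC hL (by positivity) (hV v) k e he
    _ = _ := by rw [Finset.sum_const, nsmul_eq_mul]

end hits

/-! ### one window -/

/-- the right end points used in the window starting at `k` -/
def pos (k m D i : ℕ) : ℕ := k + (m + 1 + i) * D

/-- the sums found in a window -/
def Uw (Z : Finset ℤ) (D m k : ℕ) (T : ℤ) (C : Finset ℕ) : Finset ℤ :=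
  ((Finset.range m).filter (fun i => pos k m D i ∈ C)).biUnion
    (fun i => tr Z (T + sm (C ∩ Finset.Ioc k (pos k m D i))))

theorem tr_inter (Z : Finset ℤ) (t b : ℤ) : (tr Z (t + b) ∩ tr Z t).card = (tr Z b ∩ Z).card := by
  rw [← tr_card (tr Z b ∩ Z) t]
  congr 1
  ext v
  rw [Finset.mem_inter, mem_tr, mem_tr, mem_tr, Finset.mem_inter, mem_tr,
    show v - (t + b) = v - t - b by ring]

theorem Uw_card (Z : Finset ℤ) (D m k : ℕ) (T : ℤ) (C : Finset ℕ) : (Uw Z D m k T C).card ≤ m * Z.card := by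
  unfold Uw
  refine Finset.card_biUnion_le.trans ?_
  calc ∑ i ∈ (Finset.range m).filter (fun i => pos k m D i ∈ C),
        (tr Z (T + sm (C ∩ Finset.Ioc k (pos k m D i)))).card
      = ∑ i ∈ (Finset.range m).filter (fun i => pos k m D i ∈ C), Z.card :=
        Finset.sum_congr rfl fun i _ => tr_card _ _
    _ = ((Finset.range m).filter (fun i => pos k m D i ∈ C)).card * Z.card := by
        rw [Finset.sum_const, smul_eq_mul]
    _ ≤ m * Z.card := by
        apply Nat.mul_le_mul_right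
        exact (Finset.card_filter_le _ _).trans (by rw [Finset.card_range])

theorem window_raw {p C₁ : ℝ} (h0 : 0 ≤ p) (h1 : p ≤ 1)
    (hC : ∀ (k e : ℕ), 0 < e → ∀ f : ℕ → ℤ, Ex p (Finset.Ioc k (k + e)) (at' f) ≤ C₁ / (e * Real.sqrt e))
    {L : ℝ} (hL : 0 < L) {Z : Finset ℤ} (hZ : Sep L Z) (G : Finset ℤ) (T : ℤ) {Λ : ℝ} (hΛ : 0 < Λ)
    (D m k : ℕ) (hD : 0 < D) :
    ∑ i ∈ Finset.range m, (p * Z.card
      - (Z.card * ((((m + 1 + i) * D : ℕ) : ℝ) ^ 3 / Λ ^ 2)
        + G.card * ((Λ / L + 1) * (C₁ / ((((m + 1 + i) * D : ℕ) : ℝ) * Real.sqrt (((m + 1 + i) * D : ℕ) : ℝ)))))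
      - ∑ j ∈ Finset.range i, Z.card * (((((i - j) * D : ℕ) : ℝ) ^ 2 / L + 1)
        * (C₁ / ((((i - j) * D : ℕ) : ℝ) * Real.sqrt (((i - j) * D : ℕ) : ℝ)))))
      ≤ Ex p (Finset.Ioc k (k + 2 * m * D)) (fun C => ((Uw Z D m k T C \ G).card : ℝ)) := by
  classical
  set W := Finset.Ioc k (k + 2 * m * D) with hW
  set S : Finset ℕ → ℕ → Finset ℤ := fun C i => tr Z (T + sm (C ∩ Finset.Ioc k (pos k m D i))) with hS
  have hpos : ∀ i, i < m → pos k m D i ∈ W := by
    intro i hi
    rw [hW, Finset.mem_Ioc]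
    unfold pos
    constructor
    · have : 0 < (m + 1 + i) * D := Nat.mul_pos (by omega) hD
      omega
    · have : (m + 1 + i) * D ≤ 2 * m * D := Nat.mul_le_mul_right _ (by omega)
      omega
  have hsub : ∀ i, i < m → Finset.Ioc k (pos k m D i) ⊆ W := by
    intro i hi
    exact Finset.Ioc_subset_Ioc_right (Finset.mem_Ioc.1 (hpos i hi)).2
  -- pointwise
  have hpt : ∀ C ⊆ W, ∑ i ∈ Finset.range m, (Z.card * (if pos k m D i ∈ C then (1:ℝ) else 0)
      - ((S C i ∩ G).card : ℝ) - ∑ j ∈ Finset.range i, ((S C i ∩ S C j).card : ℝ))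
      ≤ ((Uw Z D m k T C \ G).card : ℝ) := by
    intro C _
    refine le_trans ?_ (new_lower (S C) G (fun i => pos k m D i ∈ C) m)
    apply Finset.sum_le_sum
    intro i _
    have hj : ∑ j ∈ Finset.range i, (if pos k m D j ∈ C then ((S C i ∩ S C j).card : ℝ) else 0)
        ≤ ∑ j ∈ Finset.range i, ((S C i ∩ S C j).card : ℝ) := by
      apply Finset.sum_le_sum; intro j _; split_ifs
      · exact le_rfl
      · positivity
    have hcS : ((S C i).card : ℝ) = Z.card := by rw [hS]; simp only [tr_card]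
    split_ifs with hi
    · rw [hcS]; linarith
    · have a1 : (0:ℝ) ≤ ((S C i ∩ G).card : ℝ) := Nat.cast_nonneg _
      have a2 : (0:ℝ) ≤ ∑ j ∈ Finset.range i, ((S C i ∩ S C j).card : ℝ) :=
        Finset.sum_nonneg fun j _ => Nat.cast_nonneg _
      linarith
  refine le_trans ?_ (Ex_mono h0 h1 hpt)
  rw [Ex_sum]
  apply Finset.sum_le_sum
  intro i hi
  rw [Finset.mem_range] at hi
  rw [Ex_sub, Ex_sub, Ex_mul, Ex_mem (hpos i hi), Ex_sum, mul_comm (Z.card : ℝ) p]
  have b1 : Ex p W (fun C => ((S C i ∩ G).card : ℝ))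
      ≤ Z.card * ((((m + 1 + i) * D : ℕ) : ℝ) ^ 3 / Λ ^ 2)
        + G.card * ((Λ / L + 1) * (C₁ / ((((m + 1 + i) * D : ℕ) : ℝ) * Real.sqrt (((m + 1 + i) * D : ℕ) : ℝ)))) := by
    have := hit_bound h0 h1 hC hL hZ G T hΛ k ((m + 1 + i) * D) (Nat.mul_pos (by omega) hD)
    refine le_trans (le_of_eq ?_) this
    exact Ex_marg (f := fun B => ((tr Z (T + sm B) ∩ G).card : ℝ)) (hsub i hi)
  have b2 : ∀ j ∈ Finset.range i, Ex p W (fun C => ((S C i ∩ S C j).card : ℝ))
      ≤ Z.card * (((((i - j) * D : ℕ) : ℝ) ^ 2 / L + 1)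
        * (C₁ / ((((i - j) * D : ℕ) : ℝ) * Real.sqrt (((i - j) * D : ℕ) : ℝ)))) := by
    intro j hj
    rw [Finset.mem_range] at hj
    have hpij : pos k m D i = pos k m D j + (i - j) * D := by
      unfold pos
      have hh : m + 1 + i = (m + 1 + j) + (i - j) := by omega
      rw [hh, add_mul, ← add_assoc]
    have hkj : k ≤ pos k m D j := by unfold pos; omega
    have := coinc_bound h0 h1 hC hL hZ (pos k m D j) ((i - j) * D) (Nat.mul_pos (by omega) hD)
    refine le_trans (le_of_eq ?_) this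
    have hsub' : Finset.Ioc (pos k m D j) (pos k m D j + (i - j) * D) ⊆ W := by
      rw [← hpij]
      exact (Finset.Ioc_subset_Ioc_left hkj).trans (hsub i hi)
    rw [← Ex_marg (f := fun B => ((tr Z (sm B) ∩ Z).card : ℝ)) hsub']
    apply Ex_congr
    intro C _
    have hsplit : C ∩ Finset.Ioc k (pos k m D i) = (C ∩ Finset.Ioc k (pos k m D j))
        ∪ (C ∩ Finset.Ioc (pos k m D j) (pos k m D j + (i - j) * D)) := by
      rw [← Finset.inter_union_distrib_left, ← hpij]
      congr 1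
      ext x; simp only [Finset.mem_Ioc, Finset.mem_union]
      have : pos k m D j ≤ pos k m D i := by rw [hpij]; omega
      omega
    have hdis : Disjoint (C ∩ Finset.Ioc k (pos k m D j))
        (C ∩ Finset.Ioc (pos k m D j) (pos k m D j + (i - j) * D)) := by
      rw [Finset.disjoint_left]; intro x
      simp only [Finset.mem_inter, Finset.mem_Ioc]; omega
    have : T + sm (C ∩ Finset.Ioc k (pos k m D i)) = (T + sm (C ∩ Finset.Ioc k (pos k m D j)))
        + sm (C ∩ Finset.Ioc (pos k m D j) (pos k m D j + (i - j) * D)) := by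
      rw [hsplit, sm_union hdis]; ring
    simp only [hS]
    rw [this, tr_inter]
  have b3 := Finset.sum_le_sum b2
  linarith

theorem sum_three_halves (n : ℕ) :
    ∑ j ∈ Finset.range n, 1 / (((j:ℝ) + 1) * Real.sqrt ((j:ℝ) + 1)) ≤ 3 := by
  have h : ∀ n : ℕ, ∑ j ∈ Finset.range (n + 1), 1 / (((j:ℝ) + 1) * Real.sqrt ((j:ℝ) + 1))
      ≤ 3 - 2 / Real.sqrt ((n:ℝ) + 1) := by
    intro n
    induction n with
    | zero => simp; norm_num
    | succ n ih =>
      rw [Finset.sum_range_succ]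
      push_cast
      set a := Real.sqrt ((n:ℝ) + 1) with ha
      set b := Real.sqrt ((n:ℝ) + 1 + 1) with hb
      have ha0 : 0 < a := Real.sqrt_pos.2 (by positivity)
      have hb0 : 0 < b := Real.sqrt_pos.2 (by positivity)
      have ha2 : a ^ 2 = (n:ℝ) + 1 := Real.sq_sqrt (by positivity)
      have hb2 : b ^ 2 = (n:ℝ) + 1 + 1 := Real.sq_sqrt (by positivity)
      have hab : a ≤ b := Real.sqrt_le_sqrt (by linarith)
      rw [← hb2]
      have hkey : 1 / (b ^ 2 * b) ≤ 2 / a - 2 / b := by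
        have e1 : 2 / a - 2 / b - 1 / (b ^ 2 * b) = (2 * b ^ 2 * (b - a) - a) / (a * b ^ 3) := by
          field_simp
        have e2 : 0 ≤ 2 * b ^ 2 * (b - a) - a := by
          have e3 : (b - a) * (b + a) = 1 := by nlinarith
          have e4 : 0 < b + a := by linarith
          have e5 : (2 * b ^ 2 * (b - a) - a) * (b + a) = 2 * b ^ 2 - a * (b + a) := by
            calc (2 * b ^ 2 * (b - a) - a) * (b + a) = 2 * b ^ 2 * ((b - a) * (b + a)) - a * (b + a) := by ring
              _ = _ := by rw [e3]; ring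
          have e6 : 0 ≤ 2 * b ^ 2 - a * (b + a) := by nlinarith
          rw [← e5] at e6
          exact nonneg_of_mul_nonneg_left e6 e4
        have e7 : 0 ≤ (2 * b ^ 2 * (b - a) - a) / (a * b ^ 3) := div_nonneg e2 (by positivity)
        linarith
      linarith
  rcases n with _ | n
  · simp
  · refine (h n).trans ?_
    have : 0 ≤ 2 / Real.sqrt ((n:ℝ) + 1) := by positivity
    linarith

theorem window {p C₁ : ℝ} (h0 : 0 < p) (h1 : p ≤ 1) (hC₁ : 0 < C₁)
    (hC : ∀ (k e : ℕ), 0 < e → ∀ f : ℕ → ℤ, Ex p (Finset.Ioc k (k + e)) (at' f) ≤ C₁ / (e * Real.sqrt e))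
    {L : ℝ} (hL : 0 < L) {Z : Finset ℤ} (hZ : Sep L Z) (G : Finset ℤ) (T : ℤ) {lam : ℝ} (hlam : 0 < lam)
    (hlam2 : 128 ≤ p * lam ^ 2) (D m k : ℕ) (hD : 0 < D) (hm : 0 < m) (hD2 : 48 * C₁ ≤ p * D)
    (hm2 : 16 * C₁ * (m * Real.sqrt (m * D)) ≤ p * L)
    (hG : G.card * (C₁ * (lam / L + 1 / ((m * D) * Real.sqrt (m * D)))) ≤ p / 16 * Z.card) :
    p / 2 * (m * Z.card) ≤ Ex p (Finset.Ioc k (k + 2 * m * D)) (fun C => ((Uw Z D m k T C \ G).card : ℝ)) := by
  have hDR : (1:ℝ) ≤ D := by exact_mod_cast hD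
  have hmR : (1:ℝ) ≤ m := by exact_mod_cast hm
  set X : ℝ := (m:ℝ) * D with hX
  have hX1 : 1 ≤ X := by rw [hX]; nlinarith
  have hX0 : 0 < X := by linarith
  have hsX : 0 < Real.sqrt X := Real.sqrt_pos.2 hX0
  have hsX2 : Real.sqrt X * Real.sqrt X = X := Real.mul_self_sqrt hX0.le
  have hZ0 : (0:ℝ) ≤ Z.card := Nat.cast_nonneg _
  have hG0 : (0:ℝ) ≤ G.card := Nat.cast_nonneg _
  set Λ := lam * (X * Real.sqrt X) with hΛ
  have hΛ0 : 0 < Λ := by positivity
  refine le_trans ?_ (window_raw h0.le h1 hC hL hZ G T hΛ0 D m k hD)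
  have hterm : ∀ i ∈ Finset.range m, p / 2 * (Z.card : ℝ) ≤ p * Z.card
      - (Z.card * ((((m + 1 + i) * D : ℕ) : ℝ) ^ 3 / Λ ^ 2)
        + G.card * ((Λ / L + 1) * (C₁ / ((((m + 1 + i) * D : ℕ) : ℝ) * Real.sqrt (((m + 1 + i) * D : ℕ) : ℝ)))))
      - ∑ j ∈ Finset.range i, Z.card * (((((i - j) * D : ℕ) : ℝ) ^ 2 / L + 1)
        * (C₁ / ((((i - j) * D : ℕ) : ℝ) * Real.sqrt (((i - j) * D : ℕ) : ℝ)))) := by
    intro i hi
    rw [Finset.mem_range] at hi
    have hiR : (i:ℝ) + 1 ≤ m := by exact_mod_cast hi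
    set e : ℝ := (((m + 1 + i) * D : ℕ) : ℝ) with he
    have heq : e = ((m:ℝ) + 1 + i) * D := by rw [he]; push_cast; ring
    have hi0 : (0:ℝ) ≤ i := Nat.cast_nonneg i
    have heX : X ≤ e := by rw [heq, hX]; nlinarith
    have heX2 : e ≤ 2 * X := by rw [heq, hX]; nlinarith
    have t1 : e ^ 3 / Λ ^ 2 ≤ p / 16 := by
      rw [div_le_iff₀ (by positivity)]
      have a1 : Λ ^ 2 = lam ^ 2 * X ^ 3 := by
        rw [hΛ]
        calc (lam * (X * Real.sqrt X)) ^ 2 = lam ^ 2 * X ^ 2 * (Real.sqrt X * Real.sqrt X) := by ring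
          _ = _ := by rw [hsX2]; ring
      have a2 : e ^ 3 ≤ (2 * X) ^ 3 := pow_le_pow_left₀ (by linarith) heX2 3
      rw [a1]
      have a3 : 0 < X ^ 3 := by positivity
      nlinarith
    have t2 : (Λ / L + 1) * (C₁ / (e * Real.sqrt e)) ≤ C₁ * (lam / L + 1 / (X * Real.sqrt X)) := by
      have a1 : C₁ / (e * Real.sqrt e) ≤ C₁ / (X * Real.sqrt X) := by
        apply div_le_div_of_nonneg_left hC₁.le (by positivity)
        exact mul_le_mul heX (Real.sqrt_le_sqrt heX) hsX.le (by linarith)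
      have a2 : 0 ≤ Λ / L + 1 := by positivity
      refine (mul_le_mul_of_nonneg_left a1 a2).trans (le_of_eq ?_)
      rw [hΛ]; field_simp
    have t3 : ∑ j ∈ Finset.range i, Z.card * (((((i - j) * D : ℕ) : ℝ) ^ 2 / L + 1)
        * (C₁ / ((((i - j) * D : ℕ) : ℝ) * Real.sqrt (((i - j) * D : ℕ) : ℝ)))) ≤ Z.card * (p / 8) := by
      rw [← Finset.mul_sum]
      apply mul_le_mul_of_nonneg_left _ hZ0
      have b1 : ∀ j ∈ Finset.range i, ((((i - j) * D : ℕ) : ℝ) ^ 2 / L + 1)
          * (C₁ / ((((i - j) * D : ℕ) : ℝ) * Real.sqrt (((i - j) * D : ℕ) : ℝ)))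
          ≤ C₁ * Real.sqrt X / L + (C₁ / D) * (1 / ((((i - 1 - j : ℕ) : ℝ) + 1) * Real.sqrt (((i - 1 - j : ℕ) : ℝ) + 1))) := by
        intro j hj
        rw [Finset.mem_range] at hj
        have c1 : ((i - 1 - j : ℕ) : ℝ) + 1 = ((i - j : ℕ) : ℝ) := by
          have : i - 1 - j + 1 = i - j := by omega
          exact_mod_cast this
        rw [c1]
        set d' : ℝ := ((i - j : ℕ) : ℝ) with hd'
        have hd'1 : 1 ≤ d' := by rw [hd']; exact_mod_cast (by omega : 1 ≤ i - j)
        have hd'm : d' ≤ m := by rw [hd']; exact_mod_cast (by omega : i - j ≤ m)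
        have c2 : (((i - j) * D : ℕ) : ℝ) = d' * D := by rw [Nat.cast_mul]
        rw [c2]
        set d := d' * D with hd
        have hdX : d ≤ X := by rw [hd, hX]; exact mul_le_mul_of_nonneg_right hd'm (by linarith)
        have hd0 : 0 < d := by rw [hd]; positivity
        have hsd : 0 < Real.sqrt d := Real.sqrt_pos.2 hd0
        have hsd2 : Real.sqrt d * Real.sqrt d = d := Real.mul_self_sqrt hd0.le
        have hdd : d' ≤ d := by rw [hd]; nlinarith
        have c3 : (d ^ 2 / L + 1) * (C₁ / (d * Real.sqrt d)) = C₁ * Real.sqrt d / L + C₁ / (d * Real.sqrt d) := by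
          have : d ^ 2 = d * (Real.sqrt d * Real.sqrt d) := by rw [hsd2]; ring
          rw [this]; field_simp
        rw [c3]
        have c4 : C₁ * Real.sqrt d / L ≤ C₁ * Real.sqrt X / L := by
          gcongr
        have c5 : C₁ / (d * Real.sqrt d) ≤ (C₁ / D) * (1 / (d' * Real.sqrt d')) := by
          rw [div_mul_div_comm, mul_one]
          apply div_le_div_of_nonneg_left hC₁.le (by positivity)
          calc (D:ℝ) * (d' * Real.sqrt d') = d * Real.sqrt d' := by rw [hd]; ring
            _ ≤ d * Real.sqrt d := by gcongr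
        linarith
      refine (Finset.sum_le_sum b1).trans ?_
      rw [Finset.sum_add_distrib, Finset.sum_const, Finset.card_range, nsmul_eq_mul, ← Finset.mul_sum]
      have b2 : ∑ j ∈ Finset.range i, 1 / ((((i - 1 - j : ℕ) : ℝ) + 1) * Real.sqrt (((i - 1 - j : ℕ) : ℝ) + 1)) ≤ 3 := by
        rw [Finset.sum_range_reflect (fun j : ℕ => 1 / (((j:ℝ) + 1) * Real.sqrt ((j:ℝ) + 1))) i]
        exact sum_three_halves i
      have b3 : (i:ℝ) * (C₁ * Real.sqrt X / L) ≤ p / 16 := by
        have : (i:ℝ) * (C₁ * Real.sqrt X / L) ≤ m * (C₁ * Real.sqrt X / L) := by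
          apply mul_le_mul_of_nonneg_right (by linarith) (by positivity)
        refine this.trans ?_
        rw [mul_div_assoc', div_le_iff₀ hL]
        linarith
      have b4 : C₁ / D * ∑ j ∈ Finset.range i, 1 / ((((i - 1 - j : ℕ) : ℝ) + 1) * Real.sqrt (((i - 1 - j : ℕ) : ℝ) + 1)) ≤ p / 16 := by
        refine (mul_le_mul_of_nonneg_left b2 (by positivity)).trans ?_
        rw [div_mul_eq_mul_div, div_le_iff₀ (by linarith)]
        linarith
      linarith
    have u1 : (Z.card:ℝ) * (e ^ 3 / Λ ^ 2) ≤ Z.card * (p / 16) := mul_le_mul_of_nonneg_left t1 hZ0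
    have u2 : (G.card:ℝ) * ((Λ / L + 1) * (C₁ / (e * Real.sqrt e))) ≤ p / 16 * Z.card :=
      (mul_le_mul_of_nonneg_left t2 hG0).trans hG
    nlinarith
  have := Finset.sum_le_sum hterm
  rw [Finset.sum_const, Finset.card_range, nsmul_eq_mul] at this
  linarith

/-! ### all windows -/

/-- the sums found in the first `j` windows -/
def Gf (Z : Finset ℤ) (D m n₀ : ℕ) : ℕ → Finset ℕ → Finset ℤ
  | 0, _ => ∅
  | j + 1, B => Gf Z D m n₀ j (B ∩ Finset.Ioc n₀ (n₀ + j * (2 * m * D))) ∪
      Uw Z D m (n₀ + j * (2 * m * D)) (sm (B ∩ Finset.Ioc n₀ (n₀ + j * (2 * m * D))))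
        (B ∩ Finset.Ioc (n₀ + j * (2 * m * D)) (n₀ + j * (2 * m * D) + 2 * m * D))

theorem Gf_mem (Z : Finset ℤ) (D m n₀ : ℕ) (j : ℕ) (B : Finset ℕ)
    (hB : B ⊆ Finset.Ioc n₀ (n₀ + j * (2 * m * D))) (v : ℤ) (hv : v ∈ Gf Z D m n₀ j B) :
    ∃ z ∈ Z, ∃ y ∈ B, v = z + sm (B ∩ Finset.Ioc n₀ y) := by
  induction j generalizing B with
  | zero => simp [Gf] at hv
  | succ j ih =>
    unfold Gf at hv
    rw [Finset.mem_union] at hv
    rcases hv with hv | hv
    · obtain ⟨z, hz, y, hy, rfl⟩ := ih _ Finset.inter_subset_right hv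
      refine ⟨z, hz, y, (Finset.mem_inter.1 hy).1, ?_⟩
      congr 2
      ext x
      simp only [Finset.mem_inter, Finset.mem_Ioc] at hy ⊢
      constructor
      · rintro ⟨⟨h1, h2, h3⟩, h4, h5⟩; exact ⟨h1, h4, h5⟩
      · rintro ⟨h1, h4, h5⟩; exact ⟨⟨h1, h4, by omega⟩, h4, h5⟩
    · unfold Uw at hv
      rw [Finset.mem_biUnion] at hv
      obtain ⟨i, hi, hv⟩ := hv
      rw [Finset.mem_filter, Finset.mem_inter] at hi
      rw [mem_tr] at hv
      set K := n₀ + j * (2 * m * D) with hK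
      set y := pos K m D i with hy
      refine ⟨_, hv, y, hi.2.1, ?_⟩
      have hyK : K < y := (Finset.mem_Ioc.1 hi.2.2).1
      have hyK2 : y ≤ K + 2 * m * D := (Finset.mem_Ioc.1 hi.2.2).2
      have hsplit : B ∩ Finset.Ioc n₀ y = (B ∩ Finset.Ioc n₀ K)
          ∪ (B ∩ Finset.Ioc K (K + 2 * m * D) ∩ Finset.Ioc K y) := by
        ext x
        simp only [Finset.mem_inter, Finset.mem_Ioc, Finset.mem_union]
        constructor
        · rintro ⟨h1, h2, h3⟩
          by_cases h4 : x ≤ K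
          · exact Or.inl ⟨h1, h2, h4⟩
          · exact Or.inr ⟨⟨h1, by omega, by omega⟩, by omega, h3⟩
        · rintro (⟨h1, h2, h3⟩ | ⟨⟨h1, h2, h3⟩, h4, h5⟩)
          · exact ⟨h1, h2, by omega⟩
          · exact ⟨h1, by omega, h5⟩
      have hdis : Disjoint (B ∩ Finset.Ioc n₀ K)
          (B ∩ Finset.Ioc K (K + 2 * m * D) ∩ Finset.Ioc K y) := by
        rw [Finset.disjoint_left]; intro x
        simp only [Finset.mem_inter, Finset.mem_Ioc]; omega
      rw [hsplit, sm_union hdis]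
      ring

open Classical in
/-- the potential -/
noncomputable def pot (g₀ N : ℝ) (G : Finset ℤ) : ℝ :=
  if (G.card : ℝ) ≤ g₀ then Real.exp (-(G.card / N)) else 0

theorem exp_half {u : ℝ} (h0 : 0 ≤ u) (h1 : u ≤ 1) : Real.exp (-u) ≤ 1 - u / 2 := by
  have h2 : Real.exp (-u) ≤ 1 + (-u) + (-u) ^ 2 := by
    have := (abs_le.1 (Real.abs_exp_sub_one_sub_id_le (x := -u) (by rw [abs_neg, abs_of_nonneg h0]; exact h1))).2
    linarith
  by_cases hu : u ≤ 1 / 2
  · nlinarith
  · push Not at hu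
    -- convexity: compare with the chord
    have hc := convexOn_exp.2 (Set.mem_univ (0:ℝ)) (Set.mem_univ (-1:ℝ)) (by linarith : 0 ≤ 1 - u) h0 (by ring)
    simp only [smul_eq_mul, mul_zero, zero_add, Real.exp_zero, mul_one, mul_neg] at hc
    have he : Real.exp (-1) ≤ 1 / 2 := by
      rw [Real.exp_neg, inv_le_comm₀ (Real.exp_pos 1) (by norm_num)]
      have := Real.add_one_le_exp (1:ℝ)
      linarith
    nlinarith

theorem all_windows {p : ℝ} (h0 : 0 < p) (h1 : p ≤ 1) (Z : Finset ℤ) (D m n₀ : ℕ) (g₀ : ℝ)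
    (hN : 0 < m * Z.card)
    (hwin : ∀ (k : ℕ) (T : ℤ) (G : Finset ℤ), (G.card : ℝ) ≤ g₀ → p / 2 * (m * Z.card)
      ≤ Ex p (Finset.Ioc k (k + 2 * m * D)) (fun C => ((Uw Z D m k T C \ G).card : ℝ)))
    (j : ℕ) :
    Ex p (Finset.Ioc n₀ (n₀ + j * (2 * m * D))) (fun B => pot g₀ (m * Z.card) (Gf Z D m n₀ j B))
      ≤ (1 - p / 4) ^ j := by
  have hNR : (0:ℝ) < m * Z.card := by exact_mod_cast hN
  set N : ℝ := (m:ℝ) * Z.card with hNdef
  induction j with
  | zero =>
    simp only [pow_zero]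
    apply Ex_le_one h0.le h1
    intro B _
    unfold pot Gf
    split_ifs
    · simp
    · norm_num
  | succ j ih =>
    set K := n₀ + j * (2 * m * D) with hK
    have hK1 : n₀ + (j + 1) * (2 * m * D) = K + 2 * m * D := by rw [hK]; ring
    rw [hK1]
    have hU : Finset.Ioc n₀ (K + 2 * m * D) = Finset.Ioc n₀ K ∪ Finset.Ioc K (K + 2 * m * D) := by
      rw [Finset.Ioc_union_Ioc_eq_Ioc (by omega) (by omega)]
    have hdis : Disjoint (Finset.Ioc n₀ K) (Finset.Ioc K (K + 2 * m * D)) := by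
      rw [Finset.disjoint_left]; intro x; simp only [Finset.mem_Ioc]; omega
    rw [hU, Ex_union hdis]
    calc _ ≤ Ex p (Finset.Ioc n₀ K) (fun B => (1 - p / 4) * pot g₀ N (Gf Z D m n₀ j B)) := by
          apply Ex_mono h0.le h1
          intro B hB
          set G := Gf Z D m n₀ j B with hG
          -- rewrite the family
          have hfam : ∀ C ⊆ Finset.Ioc K (K + 2 * m * D), Gf Z D m n₀ (j + 1) (B ∪ C)
              = G ∪ Uw Z D m K (sm B) C := by
            intro C hC
            have e1 : (B ∪ C) ∩ Finset.Ioc n₀ K = B := by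
              ext x; simp only [Finset.mem_inter, Finset.mem_union]
              constructor
              · rintro ⟨h2 | h2, h3⟩
                · exact h2
                · exact absurd (hC h2) (Finset.disjoint_left.1 hdis h3)
              · intro h2; exact ⟨Or.inl h2, hB h2⟩
            have e2 : (B ∪ C) ∩ Finset.Ioc K (K + 2 * m * D) = C := by
              ext x; simp only [Finset.mem_inter, Finset.mem_union]
              constructor
              · rintro ⟨h2 | h2, h3⟩
                · exact absurd h3 (Finset.disjoint_left.1 hdis (hB h2))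
                · exact h2
              · intro h2; exact ⟨Or.inr h2, hC h2⟩
            conv_lhs => unfold Gf
            rw [← hK, e1, e2]
          by_cases hg : (G.card : ℝ) ≤ g₀
          · have hpot : pot g₀ N G = Real.exp (-(G.card / N)) := by unfold pot; rw [if_pos hg]
            rw [hpot]
            have hpt : ∀ C ⊆ Finset.Ioc K (K + 2 * m * D), pot g₀ N (Gf Z D m n₀ (j + 1) (B ∪ C))
                ≤ Real.exp (-(G.card / N)) + (-(Real.exp (-(G.card / N)) / (2 * N)))
                  * ((Uw Z D m K (sm B) C \ G).card : ℝ) := by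
              intro C hC
              rw [hfam C hC]
              have hcard : ((G ∪ Uw Z D m K (sm B) C).card : ℝ)
                  = G.card + (Uw Z D m K (sm B) C \ G).card := by
                rw [← Finset.union_sdiff_self_eq_union, Finset.card_union_of_disjoint Finset.disjoint_sdiff]
                push_cast; ring
              set u : ℝ := ((Uw Z D m K (sm B) C \ G).card : ℝ) / N with hu
              have hu0 : 0 ≤ u := by positivity
              have hu1 : u ≤ 1 := by
                rw [hu, div_le_one hNR]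
                have h3 := (Finset.card_le_card (Finset.sdiff_subset (s := Uw Z D m K (sm B) C) (t := G))).trans
                  (Uw_card Z D m K (sm B) C)
                rw [hNdef]; exact_mod_cast h3
              have h4 : pot g₀ N (G ∪ Uw Z D m K (sm B) C) ≤ Real.exp (-(G.card / N)) * Real.exp (-u) := by
                unfold pot
                split_ifs
                · rw [← Real.exp_add, hcard]
                  apply le_of_eq; congr 1; rw [hu]; ring
                · positivity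
              refine h4.trans ?_
              have h5 := mul_le_mul_of_nonneg_left (exp_half hu0 hu1) (Real.exp_pos (-(G.card / N))).le
              refine h5.trans (le_of_eq ?_)
              rw [hu]; field_simp; ring
            refine (Ex_mono h0.le h1 hpt).trans ?_
            rw [Ex_add, Ex_const, Ex_mul]
            have h6 := hwin K (sm B) G hg
            have h7 : (-(Real.exp (-(G.card / N)) / (2 * N)))
                  * Ex p (Finset.Ioc K (K + 2 * m * D)) (fun C => ((Uw Z D m K (sm B) C \ G).card : ℝ))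
                ≤ (-(Real.exp (-(G.card / N)) / (2 * N))) * (p / 2 * N) := by
              apply mul_le_mul_of_nonpos_left h6
              rw [neg_nonpos]; positivity
            have h8 : (-(Real.exp (-(G.card / N)) / (2 * N))) * (p / 2 * N)
                = -(p / 4) * Real.exp (-(G.card / N)) := by field_simp; ring
            linarith
          · have hpot : pot g₀ N G = 0 := by unfold pot; rw [if_neg hg]
            rw [hpot, mul_zero]
            have : Ex p (Finset.Ioc K (K + 2 * m * D)) (fun C => pot g₀ N (Gf Z D m n₀ (j + 1) (B ∪ C)))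
                ≤ Ex p (Finset.Ioc K (K + 2 * m * D)) (fun _ => 0) := by
              apply Ex_mono h0.le h1
              intro C hC
              rw [hfam C hC]
              unfold pot
              rw [if_neg]
              intro h
              apply hg
              have h3 : (G.card : ℝ) ≤ (G ∪ Uw Z D m K (sm B) C).card := by
                exact_mod_cast Finset.card_le_card Finset.subset_union_left
              linarith
            rwa [Ex_const] at this
      _ = (1 - p / 4) * Ex p (Finset.Ioc n₀ K) (fun B => pot g₀ N (Gf Z D m n₀ j B)) := Ex_mul _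
      _ ≤ (1 - p / 4) * (1 - p / 4) ^ j := by
          apply mul_le_mul_of_nonneg_left ih; linarith
      _ = (1 - p / 4) ^ (j + 1) := by ring

/-! ### the left half -/

/-- the left partial sums -/
def Zl (n₀ : ℕ) (A : Finset ℕ) : Finset ℤ := A.image (fun x => sm (A ∩ Finset.Icc x n₀))

theorem left_gap {n₀ : ℕ} {A : Finset ℕ} (hA : ∀ x ∈ A, x ≤ n₀) {x x' : ℕ} (hx : x ∈ A)
    (hxx : x < x') : sm (A ∩ Finset.Icc x' n₀) + x ≤ sm (A ∩ Finset.Icc x n₀) := by
  have hn : x ∉ A ∩ Finset.Icc x' n₀ := by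
    simp only [Finset.mem_inter, Finset.mem_Icc]; omega
  have h1 : sm (insert x (A ∩ Finset.Icc x' n₀)) = x + sm (A ∩ Finset.Icc x' n₀) := by
    unfold sm; rw [Finset.sum_insert hn]
  have h2 : sm (insert x (A ∩ Finset.Icc x' n₀)) ≤ sm (A ∩ Finset.Icc x n₀) := by
    unfold sm
    apply Finset.sum_le_sum_of_subset_of_nonneg
    · intro y hy
      rw [Finset.mem_insert] at hy
      rcases hy with rfl | hy
      · simp only [Finset.mem_inter, Finset.mem_Icc]; exact ⟨hx, le_rfl, hA _ hx⟩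
      · simp only [Finset.mem_inter, Finset.mem_Icc] at hy ⊢
        exact ⟨hy.1, by omega, hy.2.2⟩
    · intro y _ _; positivity
  linarith

theorem Zl_inj {n₁ n₀ : ℕ} {A : Finset ℕ} (hA : A ⊆ Finset.Ioc n₁ n₀) :
    Set.InjOn (fun x => sm (A ∩ Finset.Icc x n₀)) A := by
  have hA' : ∀ x ∈ A, x ≤ n₀ := fun x hx => (Finset.mem_Ioc.1 (hA hx)).2
  intro x hx y hy h
  simp only at h
  have hx0 : n₁ < x := (Finset.mem_Ioc.1 (hA hx)).1
  have hy0 : n₁ < y := (Finset.mem_Ioc.1 (hA hy)).1
  rcases lt_trichotomy x y with hlt | heq | hgt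
  · have := left_gap hA' hx hlt; omega
  · exact heq
  · have := left_gap hA' hy hgt; omega

theorem Zl_card {n₁ n₀ : ℕ} {A : Finset ℕ} (hA : A ⊆ Finset.Ioc n₁ n₀) : (Zl n₀ A).card = A.card :=
  Finset.card_image_of_injOn (Zl_inj hA)

theorem Zl_sep {n₁ n₀ : ℕ} {A : Finset ℕ} (hA : A ⊆ Finset.Ioc n₁ n₀) : Sep (n₁:ℝ) (Zl n₀ A) := by
  have hA' : ∀ x ∈ A, x ≤ n₀ := fun x hx => (Finset.mem_Ioc.1 (hA hx)).2
  intro v hv v' hv' hne
  obtain ⟨x, hx, rfl⟩ := Finset.mem_image.1 hv
  obtain ⟨y, hy, rfl⟩ := Finset.mem_image.1 hv'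
  have hx0 : (n₁:ℝ) < x := by exact_mod_cast (Finset.mem_Ioc.1 (hA hx)).1
  have hy0 : (n₁:ℝ) < y := by exact_mod_cast (Finset.mem_Ioc.1 (hA hy)).1
  rcases lt_trichotomy x y with hlt | heq | hgt
  · have h : ((sm (A ∩ Finset.Icc y n₀) : ℤ) : ℝ) + x ≤ (sm (A ∩ Finset.Icc x n₀) : ℤ) := by
      exact_mod_cast left_gap hA' hx hlt
    rw [abs_of_nonneg (by linarith [Nat.cast_nonneg (α := ℝ) x])]
    linarith
  · exact absurd (by rw [heq]) hne
  · have h : ((sm (A ∩ Finset.Icc x n₀) : ℤ) : ℝ) + y ≤ (sm (A ∩ Finset.Icc y n₀) : ℤ) := by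
      exact_mod_cast left_gap hA' hy hgt
    rw [abs_sub_comm, abs_of_nonneg (by linarith [Nat.cast_nonneg (α := ℝ) y])]
    linarith

theorem fam_le (D m n₁ n₀ j : ℕ) (A : Finset ℕ) :
    (Gf (Zl n₀ (A ∩ Finset.Ioc n₁ n₀)) D m n₀ j
      (A ∩ Finset.Ioc n₀ (n₀ + j * (2 * m * D)))).card ≤ (consSums A).card := by
  set AL := A ∩ Finset.Ioc n₁ n₀ with hAL
  set AR := A ∩ Finset.Ioc n₀ (n₀ + j * (2 * m * D)) with hAR
  have h : Gf (Zl n₀ AL) D m n₀ j AR ⊆ (consSums A).image (fun x : ℕ => (x:ℤ)) := by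
    intro v hv
    obtain ⟨z, hz, y, hy, rfl⟩ := Gf_mem _ D m n₀ j AR Finset.inter_subset_right v hv
    obtain ⟨x, hx, rfl⟩ := Finset.mem_image.1 hz
    have hx' := Finset.mem_inter.1 hx
    have hy' := Finset.mem_inter.1 hy
    have hx2 := Finset.mem_Ioc.1 hx'.2
    have hy2 := Finset.mem_Ioc.1 hy'.2
    rw [Finset.mem_image]
    refine ⟨∑ a ∈ A.filter (fun a => x ≤ a ∧ a ≤ y), a, ?_, ?_⟩
    · unfold consSums
      rw [Finset.mem_image]
      refine ⟨(x, y), ?_, rfl⟩
      rw [Finset.mem_filter, Finset.mem_product]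
      exact ⟨⟨hx'.1, hy'.1⟩, by simp only; omega⟩
    · have hsplit : A.filter (fun a => x ≤ a ∧ a ≤ y) = (AL ∩ Finset.Icc x n₀) ∪ (AR ∩ Finset.Ioc n₀ y) := by
        ext a
        simp only [hAL, hAR, Finset.mem_filter, Finset.mem_union, Finset.mem_inter, Finset.mem_Icc,
          Finset.mem_Ioc]
        constructor
        · rintro ⟨h1, h2, h3⟩
          by_cases h4 : a ≤ n₀
          · exact Or.inl ⟨⟨h1, by omega, h4⟩, h2, h4⟩
          · exact Or.inr ⟨⟨h1, by omega, by omega⟩, by omega, h3⟩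
        · rintro (⟨⟨h1, _, _⟩, h2, h3⟩ | ⟨⟨h1, _, _⟩, h2, h3⟩)
          · exact ⟨h1, h2, by omega⟩
          · exact ⟨h1, by omega, h3⟩
      have hdis : Disjoint (AL ∩ Finset.Icc x n₀) (AR ∩ Finset.Ioc n₀ y) := by
        rw [Finset.disjoint_left]; intro a
        simp only [Finset.mem_inter, Finset.mem_Icc, Finset.mem_Ioc]; omega
      rw [← sm_union hdis, ← hsplit]
      unfold sm
      push_cast; rfl
  refine (Finset.card_le_card h).trans Finset.card_image_le

/-! ### the probability estimate -/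

theorem left_cheb {p : ℝ} (h0 : 0 < p) (h1 : p ≤ 1) (I : Finset ℕ) (hI : 0 < I.card) :
    Ex p I (fun B => if (B.card : ℝ) < p * I.card / 2 then 1 else 0) ≤ 4 / (p * I.card) := by
  have hl : (0:ℝ) < I.card := by exact_mod_cast hI
  set l : ℝ := (I.card : ℝ) with hldef
  have hpl : 0 < p * l := mul_pos h0 hl
  have hpt : ∀ B ⊆ I, (if (B.card : ℝ) < p * l / 2 then (1:ℝ) else 0)
      ≤ (4 / (p * l) ^ 2) * ((∑ x ∈ B, (1:ℝ)) ^ 2 + (-(2 * (p * l)) * (∑ x ∈ B, (1:ℝ)) + (p * l) ^ 2)) := by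
    intro B _
    rw [Finset.sum_const, nsmul_eq_mul, mul_one]
    have e : (B.card : ℝ) ^ 2 + (-(2 * (p * l)) * B.card + (p * l) ^ 2) = (B.card - p * l) ^ 2 := by ring
    rw [e]
    split_ifs with h
    · rw [div_mul_eq_mul_div, le_div_iff₀ (by positivity), one_mul]
      nlinarith
    · positivity
  refine (Ex_mono h0.le h1 hpt).trans ?_
  rw [Ex_mul, Ex_add, Ex_add, Ex_mul, Ex_const, Ex_sq (fun _ => (1:ℝ)), Ex_lin (fun _ => (1:ℝ))]
  simp only [Finset.sum_const, nsmul_eq_mul, mul_one, one_pow]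
  rw [← hldef]
  have e : (p * l) ^ 2 + p * (1 - p) * l + (-(2 * (p * l)) * (p * l) + (p * l) ^ 2) = (1 - p) * (p * l) := by ring
  rw [e, div_mul_eq_mul_div, div_le_div_iff₀ (by positivity) hpl]
  have h2 : (1 - p) * (p * l) ≤ p * l := by nlinarith
  calc 4 * ((1 - p) * (p * l)) * (p * l) ≤ 4 * (p * l) * (p * l) := by gcongr
    _ = 4 * (p * l) ^ 2 := by ring

theorem prob_est {p : ℝ} (h0 : 0 < p) (h1 : p ≤ 1) (D m n n₁ n₀ M : ℕ) (g₀ : ℝ) (hg0 : 0 ≤ g₀)
    (hm : 0 < m) (hn1 : n₁ < n₀) (hn0 : n₀ + M * (2 * m * D) ≤ n)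
    (hwin : ∀ Z : Finset ℤ, Sep (n₁:ℝ) Z → p * ((n₀ - n₁ : ℕ) : ℝ) / 2 ≤ Z.card →
      ∀ (k : ℕ) (T : ℤ) (G : Finset ℤ), (G.card : ℝ) ≤ g₀ → p / 2 * (m * Z.card)
      ≤ Ex p (Finset.Ioc k (k + 2 * m * D)) (fun C => ((Uw Z D m k T C \ G).card : ℝ))) :
    Ex p (Finset.Icc 1 n) (fun A => if ((consSums A).card : ℝ) ≤ g₀ then 1 else 0)
      ≤ 4 / (p * ((n₀ - n₁ : ℕ) : ℝ))
        + Real.exp (g₀ / (m * (p * ((n₀ - n₁ : ℕ) : ℝ) / 2))) * (1 - p / 4) ^ M := by
  classical
  set lft := Finset.Ioc n₁ n₀ with hlft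
  set rgt := Finset.Ioc n₀ (n₀ + M * (2 * m * D)) with hrgt
  have hlc : lft.card = n₀ - n₁ := by rw [hlft, Nat.card_Ioc]
  set l : ℝ := ((n₀ - n₁ : ℕ) : ℝ) with hl
  have hl0 : 0 < l := by rw [hl]; exact_mod_cast (by omega : 0 < n₀ - n₁)
  have hdis : Disjoint lft rgt := by
    rw [Finset.disjoint_left]; intro x; simp only [hlft, hrgt, Finset.mem_Ioc]; omega
  have hsub : lft ∪ rgt ⊆ Finset.Icc 1 n := by
    intro x; simp only [hlft, hrgt, Finset.mem_union, Finset.mem_Ioc, Finset.mem_Icc]; omega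
  set F : Finset ℕ → Finset ℕ → ℝ := fun B C =>
    if ((Gf (Zl n₀ B) D m n₀ M C).card : ℝ) ≤ g₀ then 1 else 0 with hF
  have hF1 : ∀ B C, F B C ≤ 1 := fun B C => by simp only [hF]; split_ifs <;> norm_num
  have step1 : Ex p (Finset.Icc 1 n) (fun A => if ((consSums A).card : ℝ) ≤ g₀ then (1:ℝ) else 0)
      ≤ Ex p lft (fun B => Ex p rgt (fun C => F B C)) := by
    have e1 : Ex p lft (fun B => Ex p rgt (fun C => F B C))
        = Ex p (Finset.Icc 1 n) (fun A => F (A ∩ (lft ∪ rgt) ∩ lft) (A ∩ (lft ∪ rgt) ∩ rgt)) := by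
      rw [Ex_marg (f := fun A => F (A ∩ lft) (A ∩ rgt)) hsub, Ex_union hdis]
      apply Ex_congr; intro B hB
      apply Ex_congr; intro C hC
      congr 1
      · ext x; simp only [Finset.mem_inter, Finset.mem_union]
        constructor
        · intro h; exact ⟨Or.inl h, hB h⟩
        · rintro ⟨h | h, h2⟩
          · exact h
          · exact absurd (hC h) (Finset.disjoint_left.1 hdis h2)
      · ext x; simp only [Finset.mem_inter, Finset.mem_union]
        constructor
        · intro h; exact ⟨Or.inr h, hC h⟩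
        · rintro ⟨h | h, h2⟩
          · exact absurd h2 (Finset.disjoint_left.1 hdis (hB h))
          · exact h
    rw [e1]
    apply Ex_mono h0.le h1
    intro A _
    have e2 : A ∩ (lft ∪ rgt) ∩ lft = A ∩ lft := by
      ext x; simp only [Finset.mem_inter, Finset.mem_union]; tauto
    have e3 : A ∩ (lft ∪ rgt) ∩ rgt = A ∩ rgt := by
      ext x; simp only [Finset.mem_inter, Finset.mem_union]; tauto
    rw [e2, e3]
    simp only [hF]
    by_cases h : ((consSums A).card : ℝ) ≤ g₀
    · rw [if_pos h, if_pos]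
      refine le_trans ?_ h
      exact_mod_cast fam_le D m n₁ n₀ M A
    · rw [if_neg h]; split_ifs <;> norm_num
  have step2 : ∀ B ⊆ lft, Ex p rgt (fun C => F B C)
      ≤ (if (B.card : ℝ) < p * lft.card / 2 then 1 else 0)
        + Real.exp (g₀ / (m * (p * l / 2))) * (1 - p / 4) ^ M := by
    intro B hB
    have hε : 0 ≤ Real.exp (g₀ / (m * (p * l / 2))) * (1 - p / 4) ^ M := by
      have : 0 ≤ 1 - p / 4 := by linarith
      positivity
    by_cases hb : (B.card : ℝ) < p * lft.card / 2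
    · rw [if_pos hb]
      have : Ex p rgt (fun C => F B C) ≤ 1 := Ex_le_one h0.le h1 fun C _ => hF1 B C
      linarith
    · rw [if_neg hb, zero_add]
      push Not at hb
      rw [hlc, ← hl] at hb
      have hZc : (Zl n₀ B).card = B.card := Zl_card hB
      set Z := Zl n₀ B with hZ
      have hZb : p * l / 2 ≤ Z.card := by rw [hZc]; exact hb
      have hZ0 : (0:ℝ) < Z.card := lt_of_lt_of_le (by positivity) hZb
      have hN : 0 < m * Z.card := Nat.mul_pos hm (by exact_mod_cast hZ0)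
      have hNR : (0:ℝ) < m * Z.card := by exact_mod_cast hN
      have hall := all_windows h0 h1 Z D m n₀ g₀ hN (hwin Z (Zl_sep hB) hZb) M
      have hpt : ∀ C ⊆ rgt, F B C ≤ Real.exp (g₀ / (m * Z.card))
          * pot g₀ (m * Z.card) (Gf Z D m n₀ M C) := by
        intro C _
        simp only [hF, pot]
        rw [← hZ]
        split_ifs with h
        · rw [← Real.exp_add]
          apply Real.one_le_exp
          rw [← sub_eq_add_neg, ← sub_div]
          exact div_nonneg (by linarith) hNR.le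
        · simp
      refine (Ex_mono h0.le h1 hpt).trans ?_
      rw [Ex_mul]
      have hmR : (0:ℝ) < m := by exact_mod_cast hm
      have h5 : Real.exp (g₀ / (m * Z.card)) ≤ Real.exp (g₀ / (m * (p * l / 2))) := by
        apply Real.exp_le_exp.2
        apply div_le_div_of_nonneg_left hg0 (by positivity)
        exact mul_le_mul_of_nonneg_left hZb hmR.le
      calc Real.exp (g₀ / (m * Z.card)) * Ex p rgt (fun C => pot g₀ (m * Z.card) (Gf Z D m n₀ M C))
          ≤ Real.exp (g₀ / (m * Z.card)) * (1 - p / 4) ^ M :=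
            mul_le_mul_of_nonneg_left hall (Real.exp_pos _).le
        _ ≤ Real.exp (g₀ / (m * (p * l / 2))) * (1 - p / 4) ^ M := by
            apply mul_le_mul_of_nonneg_right h5
            have : 0 ≤ 1 - p / 4 := by linarith
            positivity
  refine step1.trans ((Ex_mono h0.le h1 step2).trans ?_)
  rw [Ex_add, Ex_const]
  have := left_cheb h0 h1 lft (by rw [hlc]; omega)
  rw [hlc, ← hl] at this
  rw [hlc, ← hl]
  linarith

theorem prob_eq (p : ℝ) (n : ℕ) (Q : Finset ℕ → Prop) [DecidablePred Q] :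
    prob p n Q = Ex p (Finset.Icc 1 n) (fun A => if Q A then 1 else 0) := by
  classical
  unfold prob Ex
  rw [Nat.card_Icc, Nat.add_sub_cancel, Finset.sum_filter]
  apply Finset.sum_congr rfl
  intro A _
  by_cases h : Q A <;> simp [h]

/-! ### conclusion -/

theorem main {p : ℝ} (h0 : 0 < p) (h1 : p < 1) : ∃ c : ℝ, 0 < c ∧
    Tendsto (fun n : ℕ => prob p n fun A => c * (n:ℝ) ^ 2 ≤ ((consSums A).card : ℝ)) atTop (𝓝 1) := by
  classical
  obtain ⟨C₁, hC₁, hC⟩ := atom h0 h1
  set lam := Real.sqrt (128 / p) with hlam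
  have hlam0 : 0 < lam := Real.sqrt_pos.2 (by positivity)
  have hlam2 : 128 ≤ p * lam ^ 2 := by
    rw [hlam, Real.sq_sqrt (by positivity)]
    exact le_of_eq (by field_simp)
  obtain ⟨D, hD⟩ := exists_nat_ge (48 * C₁ / p)
  have hD2 : 48 * C₁ ≤ p * D := by
    rw [div_le_iff₀ h0] at hD; linarith
  have hDR : (0:ℝ) < D := by
    by_contra h
    push Not at h
    nlinarith
  have hD0 : 0 < D := by exact_mod_cast hDR
  have hD1 : (1:ℝ) ≤ D := by exact_mod_cast hD0
  set θ := (p / (128 * C₁)) ^ 2 with hθ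
  have hθ0 : 0 < θ := by positivity
  set C₂ := C₁ * (8 * lam + 1 / Real.sqrt (θ / 8)) with hC₂
  have hC₂0 : 0 < C₂ := by
    have : 0 < Real.sqrt (θ / 8) := Real.sqrt_pos.2 (by positivity)
    positivity
  set c := min (p ^ 2 / (256 * C₂)) (p ^ 2 / (1024 * D)) with hc
  have hc0 : 0 < c := lt_min (by positivity) (by positivity)
  have hcC : c * C₂ ≤ p ^ 2 / 256 := by
    have : c ≤ p ^ 2 / (256 * C₂) := min_le_left _ _
    calc c * C₂ ≤ p ^ 2 / (256 * C₂) * C₂ := mul_le_mul_of_nonneg_right this hC₂0.le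
      _ = p ^ 2 / 256 := by field_simp
  have hcD : c * D ≤ p ^ 2 / 1024 := by
    have : c ≤ p ^ 2 / (1024 * D) := min_le_right _ _
    calc c * D ≤ p ^ 2 / (1024 * D) * D := mul_le_mul_of_nonneg_right this hDR.le
      _ = p ^ 2 / 1024 := by field_simp
  refine ⟨c, hc0, ?_⟩
  -- the window parameter
  set y : ℕ → ℝ := fun n => θ * (n:ℝ) ^ 2 / D with hy
  have hy0 : ∀ n, 0 ≤ y n := fun n => by simp only [hy]; positivity
  set m : ℕ → ℕ := fun n => ⌊(y n) ^ ((1:ℝ) / 3)⌋₊ with hm
  have hycube : ∀ n, ((y n) ^ ((1:ℝ) / 3)) ^ 3 = y n := by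
    intro n
    rw [← Real.rpow_natCast, ← Real.rpow_mul (hy0 n)]; norm_num
  have hm1 : ∀ n : ℕ, (m n : ℝ) ^ 3 * D ≤ θ * (n:ℝ) ^ 2 := by
    intro n
    have h2 : (m n : ℝ) ≤ (y n) ^ ((1:ℝ) / 3) := Nat.floor_le (Real.rpow_nonneg (hy0 n) _)
    have h3 := pow_le_pow_left₀ (Nat.cast_nonneg _) h2 3
    rw [hycube] at h3
    simp only [hy] at h3
    rwa [le_div_iff₀ hDR] at h3
  have hm2 : ∀ n : ℕ, θ * (n:ℝ) ^ 2 ≤ ((m n : ℝ) + 1) ^ 3 * D := by
    intro n
    have h2 : (y n) ^ ((1:ℝ) / 3) ≤ (m n : ℝ) + 1 := (Nat.lt_floor_add_one _).le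
    have h3 := pow_le_pow_left₀ (Real.rpow_nonneg (hy0 n) _) h2 3
    rw [hycube] at h3
    simp only [hy] at h3
    rwa [div_le_iff₀ hDR] at h3
  -- `m` is small compared with `n`
  have hratio : Tendsto (fun n : ℕ => (n:ℝ) / m n) atTop atTop := by
    rw [tendsto_atTop]
    intro R
    set R' := max R 1 with hR'
    have hR'1 : 1 ≤ R' := le_max_right _ _
    have hbig : ∀ᶠ n : ℕ in atTop, θ * R' ^ 3 + 8 * D / θ + 1 ≤ (n:ℝ) :=
      tendsto_natCast_atTop_atTop.eventually_ge_atTop _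
    filter_upwards [hbig] with n hn
    refine (le_max_left R 1).trans ?_
    rw [← hR']
    have hn1 : (1:ℝ) ≤ n := by
      have h2 : 0 < θ * R' ^ 3 := by positivity
      have h3 : 0 < 8 * D / θ := by positivity
      linarith
    -- `m ≥ 1`
    have hmpos : (0:ℝ) < m n := by
      by_contra h
      push Not at h
      have h0' : (m n : ℝ) = 0 := le_antisymm h (Nat.cast_nonneg _)
      have h2 := hm2 n
      rw [h0'] at h2
      have h3 : 8 * D / θ ≤ n := by
        have : 0 < θ * R' ^ 3 := by positivity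
        linarith
      rw [div_le_iff₀ hθ0] at h3
      nlinarith
    rw [le_div_iff₀ hmpos]
    by_contra h
    push Not at h
    have h2 : (n:ℝ) ^ 3 < (R' * m n) ^ 3 := pow_lt_pow_left₀ h (by positivity) (by norm_num)
    have h3 := hm1 n
    have h4 : (R' * m n) ^ 3 ≤ R' ^ 3 * (θ * (n:ℝ) ^ 2) := by
      rw [mul_pow]
      apply mul_le_mul_of_nonneg_left _ (by positivity)
      have : (m n : ℝ) ^ 3 ≤ (m n : ℝ) ^ 3 * D := le_mul_of_one_le_right (by positivity) hD1
      linarith
    have h5 : θ * R' ^ 3 ≤ n := by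
      have : 0 < 8 * D / θ := by positivity
      linarith
    nlinarith [sq_nonneg (n:ℝ), mul_le_mul_of_nonneg_right h5 (sq_nonneg (n:ℝ))]
  -- the estimate for large `n`
  have hest : ∀ᶠ n : ℕ in atTop, Ex p (Finset.Icc 1 n)
      (fun A => if ((consSums A).card : ℝ) ≤ c * (n:ℝ) ^ 2 then 1 else 0)
      ≤ 64 / (p * n) + Real.exp (-(p / (64 * D) * ((n:ℝ) / m n))) := by
    have hbig : ∀ᶠ n : ℕ in atTop, 8 + 8 * D / θ ≤ (n:ℝ) :=
      tendsto_natCast_atTop_atTop.eventually_ge_atTop _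
    filter_upwards [hbig, hratio.eventually_ge_atTop (8 * D)] with n hn hnm
    have hn8 : (8:ℝ) ≤ n := by
      have : 0 < 8 * D / θ := by positivity
      linarith
    have hn8' : 8 ≤ n := by exact_mod_cast hn8
    have hnR : (0:ℝ) < n := by linarith
    have hmpos : (0:ℝ) < m n := by
      by_contra h
      push Not at h
      have h0' : (m n : ℝ) = 0 := le_antisymm h (Nat.cast_nonneg _)
      rw [h0', div_zero] at hnm
      linarith
    have hmN : 0 < m n := by exact_mod_cast hmpos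
    have hm1R : (1:ℝ) ≤ m n := by exact_mod_cast hmN
    have hnm' : 8 * (D:ℝ) * m n ≤ n := by rwa [le_div_iff₀ hmpos] at hnm
    set n₁ := n / 4 with hn₁
    set n₀ := n / 2 with hn₀
    set w := 2 * m n * D with hw
    set M := (n - n₀) / w with hM
    have hw0 : 0 < w := by rw [hw]; positivity
    have hn1R : (n:ℝ) / 8 ≤ n₁ := by
      have : n ≤ 8 * n₁ := by rw [hn₁]; omega
      have : (n:ℝ) ≤ 8 * n₁ := by exact_mod_cast this
      linarith
    have hlR : (n:ℝ) / 8 ≤ ((n₀ - n₁ : ℕ) : ℝ) := by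
      have : n ≤ 8 * (n₀ - n₁) := by rw [hn₁, hn₀]; omega
      have : (n:ℝ) ≤ 8 * ((n₀ - n₁ : ℕ) : ℝ) := by exact_mod_cast this
      linarith
    have hn10 : n₁ < n₀ := by rw [hn₁, hn₀]; omega
    have hMw : n₀ + M * (2 * m n * D) ≤ n := by
      have h2 : M * w ≤ n - n₀ := Nat.div_mul_le_self _ _
      have h3 : n₀ ≤ n := Nat.div_le_self _ _
      rw [← hw]; omega
    have hMR : (n:ℝ) / (8 * m n * D) ≤ M := by
      have h2 : n - n₀ < (M + 1) * w := by
        rw [hM]
        have := Nat.lt_div_mul_add (a := n - n₀) hw0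
        linarith
      have h3 : n ≤ 2 * (n - n₀) := by rw [hn₀]; omega
      have h4 : (n:ℝ) ≤ 2 * (((M:ℝ) + 1) * w) := by
        have : n ≤ 2 * ((M + 1) * w) := by omega
        exact_mod_cast this
      have h5 : (w:ℝ) = 2 * m n * D := by rw [hw]; push_cast; ring
      rw [h5] at h4
      rw [div_le_iff₀ (by positivity)]
      nlinarith
    set L : ℝ := (n₁:ℝ) with hL
    have hL0 : 0 < L := by linarith [hn1R]
    -- the window hypothesis
    have hwin : ∀ Z : Finset ℤ, Sep (n₁:ℝ) Z → p * ((n₀ - n₁ : ℕ) : ℝ) / 2 ≤ Z.card →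
        ∀ (k : ℕ) (T : ℤ) (G : Finset ℤ), (G.card : ℝ) ≤ c * (n:ℝ) ^ 2 → p / 2 * (m n * Z.card)
        ≤ Ex p (Finset.Ioc k (k + 2 * m n * D)) (fun C => ((Uw Z D (m n) k T C \ G).card : ℝ)) := by
      intro Z hZ hZc k T G hG
      have hXpos : (0:ℝ) < (m n : ℝ) * D := by positivity
      have hsq : Real.sqrt ((m n : ℝ) * D) * Real.sqrt ((m n : ℝ) * D) = (m n : ℝ) * D :=
        Real.mul_self_sqrt hXpos.le
      apply window h0 h1.le hC₁ hC hL0 hZ G T hlam0 hlam2 D (m n) k hD0 hmN hD2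
      · -- `m √(m D)`
        have h2 : (m n : ℝ) * Real.sqrt (m n * D) ≤ p / (128 * C₁) * n := by
          apply (pow_le_pow_iff_left₀ (by positivity) (by positivity) two_ne_zero).1
          have h3 : ((m n : ℝ) * Real.sqrt (m n * D)) ^ 2 = (m n : ℝ) ^ 3 * D := by
            calc ((m n : ℝ) * Real.sqrt (m n * D)) ^ 2
                = (m n : ℝ) ^ 2 * (Real.sqrt (m n * D) * Real.sqrt (m n * D)) := by ring
              _ = _ := by rw [hsq]; ring
          rw [h3, mul_pow, ← hθ]
          exact hm1 n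
        calc 16 * C₁ * ((m n : ℝ) * Real.sqrt (m n * D)) ≤ 16 * C₁ * (p / (128 * C₁) * n) := by gcongr
          _ = p * (n / 8) := by field_simp; ring
          _ ≤ p * L := by gcongr
      · -- the bound for `G`
        have h2 : Real.sqrt (θ / 8) * n ≤ (m n * D) * Real.sqrt (m n * D) := by
          apply (pow_le_pow_iff_left₀ (by positivity) (by positivity) two_ne_zero).1
          rw [mul_pow, Real.sq_sqrt (by positivity)]
          have h3 : (((m n : ℝ) * D) * Real.sqrt (m n * D)) ^ 2 = ((m n : ℝ) * D) ^ 3 := by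
            calc (((m n : ℝ) * D) * Real.sqrt (m n * D)) ^ 2
                = ((m n : ℝ) * D) ^ 2 * (Real.sqrt (m n * D) * Real.sqrt (m n * D)) := by ring
              _ = _ := by rw [hsq]; ring
          rw [h3]
          have h4 := hm2 n
          have h5 : ((m n : ℝ) + 1) ^ 3 ≤ (2 * (m n : ℝ)) ^ 3 :=
            pow_le_pow_left₀ (by positivity) (by linarith) 3
          have h6 : (D:ℝ) ≤ (D:ℝ) ^ 3 := by nlinarith [mul_le_mul hD1 hD1 zero_le_one hDR.le]
          have h7 : (0:ℝ) ≤ (m n : ℝ) ^ 3 := by positivity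
          calc θ / 8 * (n:ℝ) ^ 2 = (θ * (n:ℝ) ^ 2) / 8 := by ring
            _ ≤ (((m n : ℝ) + 1) ^ 3 * D) / 8 := by gcongr
            _ ≤ ((2 * (m n : ℝ)) ^ 3 * D) / 8 := by gcongr
            _ = (m n : ℝ) ^ 3 * D := by ring
            _ ≤ (m n : ℝ) ^ 3 * (D:ℝ) ^ 3 := by gcongr
            _ = ((m n : ℝ) * D) ^ 3 := by ring
        have hsθ : 0 < Real.sqrt (θ / 8) := Real.sqrt_pos.2 (by positivity)
        have h3 : lam / L + 1 / ((m n * D) * Real.sqrt (m n * D)) ≤ (8 * lam + 1 / Real.sqrt (θ / 8)) / n := by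
          have a1 : lam / L ≤ 8 * lam / n := by
            rw [div_le_div_iff₀ hL0 hnR]
            nlinarith
          have a2 : 1 / (((m n : ℝ) * D) * Real.sqrt (m n * D)) ≤ 1 / (Real.sqrt (θ / 8) * n) :=
            one_div_le_one_div_of_le (by positivity) h2
          have a3 : 1 / (Real.sqrt (θ / 8) * n) = 1 / Real.sqrt (θ / 8) / n := by rw [div_div]
          rw [a3] at a2
          rw [add_div]
          linarith
        calc (G.card : ℝ) * (C₁ * (lam / L + 1 / ((m n * D) * Real.sqrt (m n * D))))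
            ≤ (c * (n:ℝ) ^ 2) * (C₁ * ((8 * lam + 1 / Real.sqrt (θ / 8)) / n)) := by gcongr
          _ = (c * C₂) * n := by rw [hC₂]; field_simp
          _ ≤ (p ^ 2 / 256) * n := by gcongr
          _ = p / 16 * (p * (n / 8) / 2) := by ring
          _ ≤ p / 16 * (p * ((n₀ - n₁ : ℕ) : ℝ) / 2) := by gcongr
          _ ≤ p / 16 * Z.card := by gcongr
    have hpe := prob_est h0 h1.le D (m n) n n₁ n₀ M (c * (n:ℝ) ^ 2) (by positivity) hmN hn10 hMw hwin
    refine hpe.trans ?_
    have hl0 : (0:ℝ) < ((n₀ - n₁ : ℕ) : ℝ) := by linarith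
    apply add_le_add
    · rw [div_le_div_iff₀ (by positivity) (by positivity)]
      have : p * (n / 8) ≤ p * ((n₀ - n₁ : ℕ) : ℝ) := by gcongr
      nlinarith
    · have e1 : c * (n:ℝ) ^ 2 / (m n * (p * ((n₀ - n₁ : ℕ) : ℝ) / 2)) ≤ (p / 8) * M := by
        have a1 : c * (n:ℝ) ^ 2 / (m n * (p * ((n₀ - n₁ : ℕ) : ℝ) / 2))
            ≤ c * (n:ℝ) ^ 2 / (m n * (p * (n / 8) / 2)) := by
          apply div_le_div_of_nonneg_left (by positivity) (by positivity)
          gcongr
        have a2 : c * (n:ℝ) ^ 2 / (m n * (p * (n / 8) / 2)) = 16 * c * n / (m n * p) := by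
          field_simp; ring
        have a3 : 16 * c * n / (m n * p) ≤ (p / 8) * ((n:ℝ) / (8 * m n * D)) := by
          rw [mul_div_assoc', div_le_div_iff₀ (by positivity) (by positivity)]
          have : c * D ≤ p ^ 2 / 1024 := hcD
          calc 16 * c * n * (8 * m n * D) = 128 * (n * m n) * (c * D) := by ring
            _ ≤ 128 * (n * m n) * (p ^ 2 / 1024) := by gcongr
            _ = p / 8 * n * (m n * p) := by ring
        calc _ ≤ _ := a1
          _ = _ := a2
          _ ≤ _ := a3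
          _ ≤ (p / 8) * M := by gcongr
      have e2 : (1 - p / 4) ^ M ≤ Real.exp (-(p / 4) * M) := by
        have b1 : 1 - p / 4 ≤ Real.exp (-(p / 4)) := by
          have := Real.add_one_le_exp (-(p / 4)); linarith
        have b2 : 0 ≤ 1 - p / 4 := by linarith
        calc (1 - p / 4) ^ M ≤ Real.exp (-(p / 4)) ^ M := pow_le_pow_left₀ b2 b1 M
          _ = Real.exp (-(p / 4) * M) := by rw [← Real.exp_nat_mul]; congr 1; ring
      calc Real.exp (c * (n:ℝ) ^ 2 / (m n * (p * ((n₀ - n₁ : ℕ) : ℝ) / 2))) * (1 - p / 4) ^ M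
          ≤ Real.exp ((p / 8) * M) * Real.exp (-(p / 4) * M) := by
            have b2 : 0 ≤ 1 - p / 4 := by linarith
            gcongr
        _ = Real.exp (-(p / 8) * M) := by rw [← Real.exp_add]; congr 1; ring
        _ ≤ Real.exp (-(p / (64 * D) * ((n:ℝ) / m n))) := by
            apply Real.exp_le_exp.2
            have : p / (64 * D) * ((n:ℝ) / m n) = (p / 8) * ((n:ℝ) / (8 * m n * D)) := by
              field_simp; ring
            rw [this]
            have : (p / 8) * ((n:ℝ) / (8 * m n * D)) ≤ (p / 8) * M := by gcongr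
            linarith
  -- the limit
  have hlim : Tendsto (fun n : ℕ => 64 / (p * n) + Real.exp (-(p / (64 * D) * ((n:ℝ) / m n)))) atTop (𝓝 0) := by
    have l1 : Tendsto (fun n : ℕ => 64 / (p * (n:ℝ))) atTop (𝓝 0) := by
      apply Tendsto.div_atTop tendsto_const_nhds
      exact tendsto_natCast_atTop_atTop.const_mul_atTop h0
    have l2 : Tendsto (fun n : ℕ => Real.exp (-(p / (64 * D) * ((n:ℝ) / m n)))) atTop (𝓝 0) := by
      apply Real.tendsto_exp_neg_atTop_nhds_zero.comp
      exact hratio.const_mul_atTop (by positivity)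
    simpa using l1.add l2
  have hprob : ∀ n : ℕ, prob p n (fun A => c * (n:ℝ) ^ 2 ≤ ((consSums A).card : ℝ))
      = 1 - Ex p (Finset.Icc 1 n) (fun A => if ¬ c * (n:ℝ) ^ 2 ≤ ((consSums A).card : ℝ) then 1 else 0) := by
    intro n
    rw [prob_eq]
    rw [show (1:ℝ) = Ex p (Finset.Icc 1 n) (fun _ => 1) from (Ex_const _).symm, ← Ex_sub]
    apply Ex_congr
    intro A _
    simp only [Ex_const]
    by_cases h : c * (n:ℝ) ^ 2 ≤ ((consSums A).card : ℝ) <;> simp [h]
  have hlow : ∀ᶠ n : ℕ in atTop, 1 - (64 / (p * n) + Real.exp (-(p / (64 * D) * ((n:ℝ) / m n))))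
      ≤ prob p n (fun A => c * (n:ℝ) ^ 2 ≤ ((consSums A).card : ℝ)) := by
    filter_upwards [hest] with n hn
    rw [hprob]
    have : Ex p (Finset.Icc 1 n) (fun A => if ¬ c * (n:ℝ) ^ 2 ≤ ((consSums A).card : ℝ) then (1:ℝ) else 0)
        ≤ Ex p (Finset.Icc 1 n) (fun A => if ((consSums A).card : ℝ) ≤ c * (n:ℝ) ^ 2 then 1 else 0) := by
      apply Ex_mono h0.le h1.le
      intro A _
      by_cases h : c * (n:ℝ) ^ 2 ≤ ((consSums A).card : ℝ)
      · simp only [h, not_true_eq_false, if_false]; split_ifs <;> norm_num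
      · have h' : ((consSums A).card : ℝ) ≤ c * (n:ℝ) ^ 2 := (not_le.1 h).le
        simp [h, h']
    linarith
  have hup : ∀ n : ℕ, prob p n (fun A => c * (n:ℝ) ^ 2 ≤ ((consSums A).card : ℝ)) ≤ 1 := by
    intro n
    rw [prob_eq]
    exact Ex_le_one h0.le h1.le fun A _ => by split_ifs <;> norm_num
  have hl : Tendsto (fun n : ℕ => 1 - (64 / (p * n) + Real.exp (-(p / (64 * D) * ((n:ℝ) / m n))))) atTop (𝓝 1) := by
    simpa using tendsto_const_nhds.sub hlim
  exact tendsto_of_tendsto_of_tendsto_of_le_of_le' hl tendsto_const_nhds hlow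
    (Eventually.of_forall hup)

/-- **Q1 (affirmative).** For every fixed `p ∈ (0, 1)` there is `c > 0` such that the set of
consecutive sums of the `p`-random subset of `[n]` has at least `c n²` elements with high
probability. -/
theorem result : ∀ p : ℝ, 0 < p → p < 1 → ∃ c : ℝ, 0 < c ∧
    Tendsto (fun n : ℕ => prob p n fun A => c * (n:ℝ) ^ 2 ≤ ((consSums A).card : ℝ)) atTop (𝓝 1) :=
  fun _ h0 h1 => main h0 h1

end Pool.Agent.Results.MP_a40b8c_co.RandomConsecutive
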